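import Mathlib

set_option autoImplicit false
set_option linter.unusedSectionVars false

namespace Pool.Agent.MP_7e38b0_nt

section Rep

variable (p : ℕ) [hp : Fact p.Prime]

theorem choose_pow_modEq (i : ℕ) : ∀ v : ℕ, v.choose (p ^ i) ≡ v / p ^ i [MOD p] := by
  induction i with
  | zero => intro v; simp [Nat.ModEq.refl]
  | succ i ih =>
    intro v
    have h := Choose.choose_modEq_choose_mod_mul_choose_div_nat (n := v) (k := p ^ (i + 1)) (p := p)
    have h1 : p ^ (i + 1) % p = 0 := Nat.mod_eq_zero_of_dvd (dvd_pow_self p (by omega))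
    have h2 : p ^ (i + 1) / p = p ^ i := by
      rw [pow_succ, Nat.mul_div_cancel _ hp.out.pos]
    rw [h1, h2, Nat.choose_zero_right, one_mul] at h
    refine h.trans ((ih (v / p)).trans ?_)
    rw [Nat.div_div_eq_div_mul, ← pow_succ']

theorem choose_trunc (i : ℕ) : ∀ v c : ℕ, c < p ^ i →
    v.choose c ≡ (v % p ^ i).choose c [MOD p] := by
  induction i with
  | zero =>
    intro v c hc
    have : c = 0 := by simpa using hc
    subst this; simp [Nat.ModEq.refl]
  | succ i ih =>
    intro v c hc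
    have h1 := Choose.choose_modEq_choose_mod_mul_choose_div_nat (n := v) (k := c) (p := p)
    have h2 := Choose.choose_modEq_choose_mod_mul_choose_div_nat (n := v % p ^ (i + 1)) (k := c)
      (p := p)
    have hc' : c / p < p ^ i := by
      rw [Nat.div_lt_iff_lt_mul hp.out.pos, ← pow_succ]; exact hc
    have h3 := ih (v / p) (c / p) hc'
    have h4 : v % p ^ (i + 1) % p = v % p := by
      rw [pow_succ']; exact Nat.mod_mul_right_mod _ _ _
    have h5 : v % p ^ (i + 1) / p = v / p % p ^ i := by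
      rw [pow_succ']; exact Nat.mod_mul_right_div_self _ _ _
    rw [h4, h5] at h2
    exact h1.trans ((Nat.ModEq.mul_left _ h3).trans h2.symm)

theorem split_choose (V : ℕ) (s : ℕ) : ∀ n : ℕ, ¬ p ∣ (s * V).choose n →
    ∃ l : List ℕ, l.length = s ∧ l.sum = n ∧ ∀ x ∈ l, ¬ p ∣ V.choose x := by
  induction s with
  | zero =>
    intro n hn
    rcases Nat.eq_zero_or_pos n with h | h
    · exact ⟨[], rfl, by simp [h], by simp⟩
    · exfalso; apply hn
      rw [zero_mul, Nat.choose_eq_zero_of_lt h]; exact dvd_zero _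
  | succ s ih =>
    intro n hn
    rw [Nat.succ_mul, Nat.add_choose_eq] at hn
    have : ∃ ij ∈ Finset.HasAntidiagonal.antidiagonal n, ¬ p ∣ (s * V).choose ij.1 * V.choose ij.2 := by
      by_contra hcon
      push Not at hcon
      exact hn (Finset.dvd_sum hcon)
    obtain ⟨⟨i, j⟩, hij, hdvd⟩ := this
    rw [Finset.HasAntidiagonal.mem_antidiagonal] at hij
    simp only at hij hdvd
    have h1 : ¬ p ∣ (s * V).choose i := fun h => hdvd (h.mul_right _)
    have h2 : ¬ p ∣ V.choose j := fun h => hdvd (h.mul_left _)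
    obtain ⟨l, hl1, hl2, hl3⟩ := ih i h1
    refine ⟨j :: l, by simp [hl1], by simp [hl2]; omega, ?_⟩
    intro x hx
    rcases List.mem_cons.mp hx with rfl | hx
    · exact h2
    · exact hl3 x hx

/-- The combinatorial lemma on binomial coefficients mod `p`. -/
theorem rep_one (k v s : ℕ) (hsv : s * v = p ^ k - 1) (hs2 : 2 ≤ s)
    (hs : ∀ j, 1 ≤ j → j < k → ¬ s ∣ p ^ j - 1) (c : ℕ) (hc2 : 2 ≤ c) (hcv : c ≤ v)
    (hc : ¬ p ∣ v.choose c) :
    ∃ l : List ℕ, l.length ≤ s ∧ l.sum = c ∧ ∀ x ∈ l, x < c ∧ ¬ p ∣ v.choose x := by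
  obtain ⟨i, u, hu, hcu⟩ := Nat.exists_eq_pow_mul_and_not_dvd (by omega : c ≠ 0) p hp.out.ne_one
  have hpi : 0 < p ^ i := pow_pos hp.out.pos i
  have hupos : 0 < u := by
    rcases Nat.eq_zero_or_pos u with h | h
    · exact absurd (h ▸ dvd_zero p) hu
    · exact h
  rcases Nat.lt_or_ge 1 u with hu2 | hu1
  · -- `c` is not a power of `p`
    have hlt : p ^ i < c := by
      rw [hcu]; exact (Nat.lt_mul_iff_one_lt_right hpi).mpr hu2
    have h1 : ¬ p ∣ c.choose (p ^ i) := by
      intro h
      apply hu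
      have h2 := (choose_pow_modEq p i c).symm.trans (Nat.modEq_zero_iff_dvd.mpr h)
      rw [Nat.modEq_zero_iff_dvd, hcu, Nat.mul_div_cancel_left _ hpi] at h2
      exact h2
    have h2 : ¬ p ∣ v.choose c * c.choose (p ^ i) := by
      rw [hp.out.dvd_mul]; tauto
    have h3 : ¬ p ∣ v.choose (p ^ i) := by
      rw [Nat.choose_mul hlt.le] at h2
      intro h; exact h2 (h.mul_right _)
    have h4 : ¬ p ∣ v.choose (c - p ^ i) := by
      have h5 : ¬ p ∣ v.choose c * c.choose (c - p ^ i) := by
        rw [Nat.choose_symm hlt.le]; exact h2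
      rw [Nat.choose_mul (Nat.sub_le _ _)] at h5
      intro h; exact h5 (h.mul_right _)
    refine ⟨[p ^ i, c - p ^ i], by simpa using hs2, by simp; omega, ?_⟩
    intro x hx
    simp only [List.mem_cons, List.not_mem_nil, or_false] at hx
    rcases hx with rfl | rfl
    · exact ⟨hlt, h3⟩
    · exact ⟨by omega, h4⟩
  · -- `c = p ^ i`
    have hu1' : u = 1 := by omega
    rw [hu1', mul_one] at hcu
    have hi1 : 1 ≤ i := by
      rcases Nat.eq_zero_or_pos i with h | h
      · rw [h, pow_zero] at hcu; omega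
      · exact h
    have hik : i < k := by
      have h1 : p ^ i < p ^ k := by
        rw [← hcu]
        have : v ≤ s * v := Nat.le_mul_of_pos_left _ (by omega)
        omega
      exact (Nat.pow_lt_pow_iff_right hp.out.one_lt).mp h1
    set V := v % p ^ i with hV
    have hVlt : V < p ^ i := Nat.mod_lt _ hpi
    have hdvd : p ^ i ∣ s * V + 1 := by
      have h1 : s * V + 1 ≡ s * v + 1 [MOD p ^ i] :=
        Nat.ModEq.add_right 1 (Nat.ModEq.mul_left s (Nat.mod_modEq _ _))
      have h2 : s * v + 1 = p ^ k := by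
        have : 0 < p ^ k := pow_pos hp.out.pos k
        omega
      rw [h2] at h1
      exact (Nat.modEq_zero_iff_dvd.mp (h1.trans (Nat.modEq_zero_iff_dvd.mpr
        (pow_dvd_pow p hik.le))))
    obtain ⟨c', hc'⟩ := hdvd
    have hc'2 : 2 ≤ c' := by
      by_contra hlt
      have : c' = 0 ∨ c' = 1 := by omega
      rcases this with h | h
      · rw [h, mul_zero] at hc'; omega
      · rw [h, mul_one] at hc'
        exact hs i hi1 hik ⟨V, by omega⟩
    have hsV : p ^ i ≤ s * V := by
      have : p ^ i * 2 ≤ p ^ i * c' := Nat.mul_le_mul_left _ hc'2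
      omega
    have hVpos : 0 < V := by
      rcases Nat.eq_zero_or_pos V with h | h
      · rw [h, mul_zero] at hsV; omega
      · exact h
    set s' := (p ^ i + V - 1) / V with hs'
    have h1 : s' * V ≤ p ^ i + V - 1 := Nat.div_mul_le_self _ _
    have h2 : p ^ i ≤ s' * V := by
      have := Nat.lt_div_mul_add (a := p ^ i + V - 1) hVpos
      rw [← hs'] at this
      omega
    have h3 : s' ≤ s := by
      rw [hs', Nat.div_le_iff_le_mul_add_pred hVpos]
      rw [mul_comm V s]; omega
    have h4 : (s' * V) / p ^ i = 1 := by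
      apply Nat.div_eq_of_lt_le
      · omega
      · omega
    have h5 : ¬ p ∣ (s' * V).choose (p ^ i) := by
      intro h
      have h6 := (choose_pow_modEq p i (s' * V)).symm.trans (Nat.modEq_zero_iff_dvd.mpr h)
      rw [h4, Nat.modEq_zero_iff_dvd] at h6
      exact hp.out.one_lt.ne' (Nat.dvd_one.mp h6)
    obtain ⟨l, hl1, hl2, hl3⟩ := split_choose p V s' (p ^ i) h5
    refine ⟨l, by omega, by rw [hl2, hcu], ?_⟩
    intro x hx
    have hx1 := hl3 x hx
    have hxV : x ≤ V := by
      by_contra hlt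
      apply hx1
      rw [Nat.choose_eq_zero_of_lt (by omega)]; exact dvd_zero _
    refine ⟨by omega, ?_⟩
    intro h
    apply hx1
    have := (choose_trunc p i v x (by omega)).symm.trans (Nat.modEq_zero_iff_dvd.mpr h)
    exact Nat.modEq_zero_iff_dvd.mp this

theorem rep_two (v r : ℕ) (hvr : v ≤ r) (hv : ¬ p ∣ v) (c : ℕ) (hc2 : 2 ≤ c) (hcv : c ≤ v) :
    ∃ l : List ℕ, l.length ≤ r ∧ l.sum = c ∧ ∀ x ∈ l, x < c ∧ ¬ p ∣ v.choose x := by
  refine ⟨List.replicate c 1, by simp; omega, by simp, ?_⟩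
  intro x hx
  rw [List.mem_replicate] at hx
  rw [hx.2, Nat.choose_one_right]
  exact ⟨by omega, hv⟩

end Rep

end Pool.Agent.MP_7e38b0_nt
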