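import Mathlib

set_option autoImplicit false
set_option linter.unusedSectionVars false

namespace Pool.Agent.MP_7e38b0_nt

open Polynomial

section Sec

variable {F : Type*} [Field F]

/-- the `a`-section of `f` modulo `Q`: its `n`-th coefficient is the coefficient of `X^(nQ+a)`. -/
noncomputable def sec (Q a : ℕ) (f : F[X]) : F[X] := contract Q (divX^[a] f)

theorem coeff_divX_iterate (a : ℕ) : ∀ (f : F[X]) (n : ℕ), (divX^[a] f).coeff n = f.coeff (n + a) := by
  induction a with
  | zero => intro f n; simp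
  | succ a ih =>
    intro f n
    rw [Function.iterate_succ_apply, ih, coeff_divX]
    congr 1

theorem coeff_sec {Q : ℕ} (hQ : Q ≠ 0) (a : ℕ) (f : F[X]) (n : ℕ) :
    (sec Q a f).coeff n = f.coeff (n * Q + a) := by
  unfold sec
  rw [coeff_contract hQ, coeff_divX_iterate]

theorem coeff_X_pow_mul_expand {Q : ℕ} (hQ : 0 < Q) (a : ℕ) (ha : a < Q) (u : F[X]) (n : ℕ) :
    (X ^ a * expand F Q u).coeff n = if n % Q = a then u.coeff (n / Q) else 0 := by
  rw [coeff_X_pow_mul']
  have hnQ := Nat.div_add_mod n Q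
  by_cases h : n % Q = a
  · have hle : a ≤ n := by rw [← h]; exact Nat.mod_le _ _
    rw [if_pos hle, if_pos h, coeff_expand hQ]
    have h1 : n - a = n / Q * Q := by
      rw [h] at hnQ
      rw [mul_comm]; omega
    rw [h1, if_pos (Dvd.intro_left _ rfl), Nat.mul_div_cancel _ hQ]
  · rw [if_neg h]
    split_ifs with hle
    · rw [coeff_expand hQ, if_neg]
      rintro ⟨d, hd⟩
      apply h
      have : n = a + Q * d := by omega
      rw [this, Nat.add_mul_mod_self_left, Nat.mod_eq_of_lt ha]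
    · rfl

theorem sec_X_pow_mul_expand {Q : ℕ} (hQ : 0 < Q) (a a' : ℕ) (ha : a < Q) (ha' : a' < Q)
    (u : F[X]) : sec Q a (X ^ a' * expand F Q u) = if a = a' then u else 0 := by
  ext n
  rw [coeff_sec hQ.ne', coeff_X_pow_mul_expand hQ a' ha']
  have h1 : (n * Q + a) % Q = a := by
    rw [add_comm, Nat.add_mul_mod_self_right, Nat.mod_eq_of_lt ha]
  have h2 : (n * Q + a) / Q = n := by
    rw [add_comm, Nat.add_mul_div_right _ _ hQ, Nat.div_eq_of_lt ha, zero_add]
  rw [h1, h2]
  split_ifs <;> simp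

theorem sec_sum {Q : ℕ} (hQ : Q ≠ 0) (a : ℕ) {ι : Type*} (s : Finset ι) (f : ι → F[X]) :
    sec Q a (∑ i ∈ s, f i) = ∑ i ∈ s, sec Q a (f i) := by
  ext n
  simp [coeff_sec hQ, finsetSum_coeff]

theorem sum_sec {Q : ℕ} (hQ : 0 < Q) (f : F[X]) :
    f = ∑ a ∈ Finset.range Q, X ^ a * expand F Q (sec Q a f) := by
  ext n
  rw [finsetSum_coeff]
  rw [Finset.sum_eq_single (n % Q)]
  · rw [coeff_X_pow_mul_expand hQ _ (Nat.mod_lt _ hQ), if_pos rfl, coeff_sec hQ.ne']
    congr 1
    have := Nat.div_add_mod n Q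
    rw [mul_comm (n / Q) Q]; exact this.symm
  · intro a ha hne
    rw [coeff_X_pow_mul_expand hQ _ (Finset.mem_range.mp ha), if_neg (Ne.symm hne)]
  · intro h
    exact absurd (Finset.mem_range.mpr (Nat.mod_lt _ hQ)) h

theorem sec_mul_expand {Q : ℕ} (hQ : 0 < Q) (a : ℕ) (ha : a < Q) (f g : F[X]) :
    sec Q a (f * expand F Q g) = sec Q a f * g := by
  conv_lhs => rw [sum_sec hQ f, Finset.sum_mul, sec_sum hQ.ne']
  rw [Finset.sum_eq_single a]
  · rw [mul_assoc, ← map_mul, sec_X_pow_mul_expand hQ a a ha ha, if_pos rfl]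
  · intro b hb hne
    rw [mul_assoc, ← map_mul, sec_X_pow_mul_expand hQ a b ha (Finset.mem_range.mp hb),
      if_neg (Ne.symm hne)]
  · intro h
    exact absurd (Finset.mem_range.mpr ha) h

variable (p : ℕ) [hp : Fact p.Prime] [CharP F p]

/-- Frobenius twist of a polynomial -/
noncomputable def tw (k : ℕ) (f : F[X]) : F[X] := f.map (iterateFrobenius F p k)

theorem expand_tw (k : ℕ) (f : F[X]) : expand F (p ^ k) (tw p k f) = f ^ p ^ k := by
  unfold tw
  rw [← map_expand, map_iterateFrobenius_expand]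

theorem tw_ne_zero (k : ℕ) (f : F[X]) (hf : f ≠ 0) : tw p k f ≠ 0 := by
  unfold tw
  rw [Ne, Polynomial.map_eq_zero]
  exact hf

/-- The sections of `P` when `P * D^Q = (A^Q + X B^Q)^v C^Q`. -/
theorem sec_P (k v : ℕ) (hv : v < p ^ k) (A B C1 D1 P : F[X])
    (h : P * D1 ^ p ^ k = (A ^ p ^ k + X * B ^ p ^ k) ^ v * C1 ^ p ^ k) (a : ℕ) (ha : a < p ^ k) :
    expand F (p ^ k) (sec (p ^ k) a P) * D1 ^ p ^ k =
      (v.choose a : F[X]) * (B ^ a * A ^ (v - a) * C1) ^ p ^ k := by
  have hQ : 0 < p ^ k := pow_pos hp.out.pos k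
  have h1 : P * D1 ^ p ^ k = ∑ i ∈ Finset.range (v + 1), X ^ i * expand F (p ^ k)
      ((v.choose i : F[X]) * tw p k (B ^ i * A ^ (v - i) * C1)) := by
    rw [h, add_comm, add_pow, Finset.sum_mul]
    apply Finset.sum_congr rfl
    intro i _
    rw [map_mul, map_natCast, expand_tw]
    ring
  have h2 := congrArg (sec (p ^ k) a) h1
  rw [← expand_tw p k D1, sec_mul_expand hQ a ha, sec_sum hQ.ne'] at h2
  have h3 : sec (p ^ k) a P * tw p k D1 =
      (v.choose a : F[X]) * tw p k (B ^ a * A ^ (v - a) * C1) := by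
    rw [h2]
    by_cases hav : a ≤ v
    · rw [Finset.sum_eq_single a]
      · rw [sec_X_pow_mul_expand hQ a a ha ha, if_pos rfl]
      · intro b hb hne
        have := Finset.mem_range.mp hb
        rw [sec_X_pow_mul_expand hQ a b ha (by omega), if_neg (Ne.symm hne)]
      · intro hn
        exact absurd (Finset.mem_range.mpr (by omega)) hn
    · rw [Nat.choose_eq_zero_of_lt (by omega), Nat.cast_zero, zero_mul]
      apply Finset.sum_eq_zero
      intro b hb
      have := Finset.mem_range.mp hb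
      rw [sec_X_pow_mul_expand hQ a b ha (by omega), if_neg (by omega)]
  have h4 := congrArg (expand F (p ^ k)) h3
  rw [map_mul, map_mul, expand_tw, expand_tw, map_natCast] at h4
  exact h4

end Sec

end Pool.Agent.MP_7e38b0_nt
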