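import Mathlib

set_option autoImplicit false
set_option linter.unusedSectionVars false
set_option linter.unusedVariables false

namespace Pool.Agent.MP_7e38b0_nt

open Finset

section US

variable {F : Type*} [Field F] [Fintype F] {p : ℕ} [hp : Fact p.Prime] [CharP F p]
variable {k m : ℕ} {K : Subfield F} {U : Submodule K F}

theorem frobK (hK : Nat.card K = p ^ k) (x : K) : (x : F) ^ (p ^ k) = x := by
  classical
  have : Fintype K := Fintype.ofFinite K
  rw [Nat.card_eq_fintype_card] at hK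
  have := FiniteField.pow_card x
  rw [hK] at this
  exact_mod_cast congrArg (fun y : K => (y : F)) this

theorem frobK_iter (hK : Nat.card K = p ^ k) (x : K) (i : ℕ) : (x : F) ^ ((p ^ k) ^ i) = x := by
  induction i with
  | zero => simp
  | succ i ih => rw [pow_succ, pow_mul, ih, frobK hK]

theorem add_pow_Q (i : ℕ) (x y : F) :
    (x + y) ^ ((p ^ k) ^ i) = x ^ ((p ^ k) ^ i) + y ^ ((p ^ k) ^ i) := by
  rw [← pow_mul, add_pow_expChar_pow]

theorem sub_pow_Q (i : ℕ) (x y : F) :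
    (x - y) ^ ((p ^ k) ^ i) = x ^ ((p ^ k) ^ i) - y ^ ((p ^ k) ^ i) := by
  rw [← pow_mul, sub_pow_expChar_pow]

theorem sum_pow_Q {ι : Type*} (s : Finset ι) (i : ℕ) (f : ι → F) :
    (∑ a ∈ s, f a) ^ ((p ^ k) ^ i) = ∑ a ∈ s, (f a) ^ ((p ^ k) ^ i) := by
  rw [← pow_mul, sum_pow_char_pow]

theorem Q_pos : 0 < p ^ k := pow_pos hp.out.pos k

theorem Q_gt (hk : 1 ≤ k) : 1 < p ^ k := Nat.one_lt_pow (by omega) hp.out.one_lt

theorem card_U (hK : Nat.card K = p ^ k) (hm : Module.finrank K U = m) :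
    Nat.card U = (p ^ k) ^ m := by
  rw [Module.natCard_eq_pow_finrank (K := K) (V := U), hK, hm]

/-- linear independence of the Frobenius powers on `U` -/
theorem indep (hk : 1 ≤ k) (hK : Nat.card K = p ^ k) (hm : Module.finrank K U = m) (ρ : ℕ → F)
    (h : ∀ u ∈ U, ∑ i ∈ range m, ρ i * u ^ ((p ^ k) ^ i) = 0) : ∀ i < m, ρ i = 0 := by
  classical
  intro i hi
  have : Fintype U := Fintype.ofFinite U
  have hQ := Q_gt (p := p) hk
  set f : Polynomial F := ∑ i ∈ range m, Polynomial.monomial ((p ^ k) ^ i) (ρ i) with hf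
  have hdeg : f.natDegree ≤ (p ^ k) ^ (m - 1) := by
    apply Polynomial.natDegree_sum_le_of_forall_le
    intro i hi
    have hi' := Finset.mem_range.mp hi
    refine (Polynomial.natDegree_monomial_le _).trans ?_
    exact Nat.pow_le_pow_right (by omega) (by omega)
  have hf0 : f = 0 := by
    apply Polynomial.eq_zero_of_natDegree_lt_card_of_eval_eq_zero' f (U : Set F).toFinset
    · intro u hu
      rw [Set.mem_toFinset] at hu
      rw [hf, Polynomial.eval_finsetSum]
      rw [← h u hu]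
      apply Finset.sum_congr rfl
      intro i _
      rw [Polynomial.eval_monomial]
    · have h1 : (U : Set F).toFinset.card = (p ^ k) ^ m := by
        rw [Set.toFinset_card, ← card_U hK hm, Nat.card_eq_fintype_card]
        rfl
      rw [h1]
      exact lt_of_le_of_lt hdeg (Nat.pow_lt_pow_right hQ (by omega))
  have h2 : f.coeff ((p ^ k) ^ i) = ρ i := by
    rw [hf, Polynomial.finsetSum_coeff, Finset.sum_eq_single i]
    · rw [Polynomial.coeff_monomial, if_pos rfl]
    · intro j _ hne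
      rw [Polynomial.coeff_monomial, if_neg]
      intro h
      exact hne (Nat.pow_right_injective hQ h)
    · intro hn
      exact absurd (Finset.mem_range.mpr hi) hn
  rw [← h2, hf0]; simp

/-- the Frobenius power as a linear map -/
noncomputable def iota (hK : Nat.card K = p ^ k) (U : Submodule K F) (i : ℕ) : U →ₗ[K] F where
  toFun u := (u : F) ^ ((p ^ k) ^ i)
  map_add' x y := by
    simp only [Submodule.coe_add]
    exact add_pow_Q i _ _
  map_smul' c x := by
    simp only [RingHom.id_apply, SetLike.val_smul, Subfield.smul_def, smul_eq_mul]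
    rw [mul_pow, frobK_iter hK]

theorem exists_repr (hk : 1 ≤ k) (hK : Nat.card K = p ^ k) (hm : Module.finrank K U = m)
    (φ : U →ₗ[K] F) :
    ∃ ρ : ℕ → F, ∀ u : U, φ u = ∑ i ∈ range m, ρ i * (u : F) ^ ((p ^ k) ^ i) := by
  have hli : LinearIndependent F (fun i : Fin m => iota hK U (i : ℕ)) := by
    rw [Fintype.linearIndependent_iff]
    intro g hg i
    have h1 := indep (U := U) (m := m) hk hK hm (fun i => if h : i < m then g ⟨i, h⟩ else 0) (by
      intro u hu
      have h2 := congrArg (fun φ : U →ₗ[K] F => φ ⟨u, hu⟩) hg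
      simp only [LinearMap.coe_sum, Finset.sum_apply, LinearMap.smul_apply, iota,
        LinearMap.coe_mk, AddHom.coe_mk, smul_eq_mul, LinearMap.zero_apply] at h2
      refine Eq.trans ?_ h2
      rw [← Fin.sum_univ_eq_sum_range
        (fun i => (if h : i < m then g ⟨i, h⟩ else 0) * u ^ ((p ^ k) ^ i)) m]
      apply Finset.sum_congr rfl
      intro i _
      simp) i i.2
    simpa using h1
  have hspan := hli.span_eq_top_of_card_eq_finrank' (by
    rw [Module.finrank_linearMap_self, hm, Fintype.card_fin])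
  have h1 : φ ∈ Submodule.span F (Set.range (fun i : Fin m => iota hK U (i : ℕ))) := by
    rw [hspan]; exact Submodule.mem_top
  rw [Submodule.mem_span_range_iff_exists_fun] at h1
  obtain ⟨c, hc⟩ := h1
  refine ⟨fun i => if h : i < m then c ⟨i, h⟩ else 0, ?_⟩
  intro u
  have h2 := congrArg (fun φ : U →ₗ[K] F => φ u) hc
  simp only [LinearMap.coe_sum, Finset.sum_apply, LinearMap.smul_apply, iota,
    LinearMap.coe_mk, AddHom.coe_mk, smul_eq_mul] at h2
  rw [← h2, ← Fin.sum_univ_eq_sum_range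
    (fun i => (if h : i < m then c ⟨i, h⟩ else 0) * (u : F) ^ ((p ^ k) ^ i)) m]
  apply Finset.sum_congr rfl
  intro i _
  simp

theorem exists_repr_pow (hk : 1 ≤ k) (hK : Nat.card K = p ^ k) (hm : Module.finrank K U = m)
    (j : ℕ) :
    ∃ ρ : ℕ → F, ∀ u ∈ U, u ^ ((p ^ k) ^ j) = ∑ i ∈ range m, ρ i * u ^ ((p ^ k) ^ i) := by
  obtain ⟨ρ, hρ⟩ := exists_repr hk hK hm (iota hK U j)
  exact ⟨ρ, fun u hu => hρ ⟨u, hu⟩⟩

/-- the coefficients `c` -/
theorem exists_c (hk : 1 ≤ k) (hK : Nat.card K = p ^ k) (hm : Module.finrank K U = m) (hm1 : 1 ≤ m)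
    (n' : ℕ) (hn' : Fintype.card F = (p ^ k) ^ n') (hn'1 : 1 ≤ n') :
    ∃ c : ℕ → F, (∀ u ∈ U, u = (∑ i ∈ range m, c i * u ^ ((p ^ k) ^ i)) ^ (p ^ k)) ∧
      c (m - 1) ≠ 0 := by
  obtain ⟨ρ, hρ⟩ := exists_repr_pow hk hK hm (n' - 1)
  have h1 : ∀ u ∈ U, u = (∑ i ∈ range m, ρ i * u ^ ((p ^ k) ^ i)) ^ (p ^ k) := by
    intro u hu
    rw [← hρ u hu, ← pow_mul, ← pow_succ, Nat.sub_add_cancel hn'1, ← hn', FiniteField.pow_card]
  refine ⟨ρ, h1, ?_⟩
  intro h0
  have h2 := indep hk hK hm (U := U) (fun i => if i = 0 then 1 else - (ρ (i - 1)) ^ (p ^ k)) (by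
    intro u hu
    have h3 := h1 u hu
    have h4 := sum_pow_Q (p := p) (k := k) (range m) 1 (fun i => ρ i * u ^ ((p ^ k) ^ i))
    rw [pow_one] at h4
    rw [h4] at h3
    obtain ⟨m', rfl⟩ : ∃ m', m = m' + 1 := ⟨m - 1, by omega⟩
    rw [Nat.add_sub_cancel] at h0
    rw [Finset.sum_range_succ, h0, zero_mul, zero_pow (Q_pos (p := p) (k := k)).ne', add_zero] at h3
    rw [Finset.sum_range_succ']
    simp only [Nat.add_eq_zero_iff, one_ne_zero, and_false, if_false, Nat.add_sub_cancel, if_true,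
      pow_zero, pow_one, one_mul]
    have h5 : ∑ i ∈ range m', - ρ i ^ (p ^ k) * u ^ (p ^ k) ^ (i + 1) =
        - ∑ i ∈ range m', (ρ i * u ^ (p ^ k) ^ i) ^ p ^ k := by
      rw [← Finset.sum_neg_distrib]
      apply Finset.sum_congr rfl
      intro i _
      rw [mul_pow, ← pow_mul u ((p ^ k) ^ i), ← pow_succ]
      ring
    rw [h5, ← h3]
    ring) 0 (by omega)
  simp at h2

/-- claim (B) -/
theorem exists_rot (hk : 1 ≤ k) (hK : Nat.card K = p ^ k) (hm : Module.finrank K U = m)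
    (hm2 : 2 ≤ m) (h1U : (1 : F) ∈ U) (l : ℕ) (hl : ∃ u ∈ U, u ^ ((p ^ k) ^ l) ≠ u) :
    ∃ i, 1 ≤ i ∧ i ≤ m - 1 ∧ ∃ ρ : ℕ → F, ρ 0 ≠ 0 ∧
      ∀ u ∈ U, u ^ ((p ^ k) ^ (l + i)) = ∑ i ∈ range m, ρ i * u ^ ((p ^ k) ^ i) := by
  by_contra hcon
  push Not at hcon
  -- `ω 0 ≠ 0` in the representation of the `m`-th power
  obtain ⟨ω, hω⟩ := exists_repr_pow hk hK hm m
  have hω0 : ω 0 ≠ 0 := by
    intro h0
    have hr : ∀ j, ∃ d : F, d ^ (p ^ k) = ω j := by
      intro j
      obtain ⟨d, hd⟩ := (iterateFrobeniusEquiv F p k).surjective (ω j)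
      exact ⟨d, by simpa [iterateFrobenius_def] using hd⟩
    choose d hd using hr
    have h2 := indep hk hK hm (U := U) (fun i => if i = m - 1 then 1 else - d (i + 1)) (by
      intro u hu
      have h3 := hω u hu
      obtain ⟨m', rfl⟩ : ∃ m', m = m' + 1 := ⟨m - 1, by omega⟩
      rw [Finset.sum_range_succ', h0, zero_mul, add_zero] at h3
      have h4 : (u ^ ((p ^ k) ^ m') - ∑ i ∈ range m', d (i + 1) * u ^ ((p ^ k) ^ i)) ^ (p ^ k) = 0 := by
        have e1 := sub_pow_Q (p := p) (k := k) 1 (u ^ ((p ^ k) ^ m'))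
          (∑ i ∈ range m', d (i + 1) * u ^ ((p ^ k) ^ i))
        have e2 := sum_pow_Q (p := p) (k := k) (range m') 1
          (fun i => d (i + 1) * u ^ ((p ^ k) ^ i))
        rw [pow_one] at e1 e2
        rw [e1, e2, ← pow_mul u ((p ^ k) ^ m'), ← pow_succ, h3, sub_eq_zero]
        apply Finset.sum_congr rfl
        intro i _
        rw [mul_pow, hd, ← pow_mul u ((p ^ k) ^ i), ← pow_succ]
      have h5 := pow_eq_zero_iff (Q_pos (p := p) (k := k)).ne' |>.mp h4
      rw [Finset.sum_range_succ, Nat.add_sub_cancel, if_pos rfl, one_mul, add_comm]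
      rw [← h5, sub_eq_add_neg, ← Finset.sum_neg_distrib]
      congr 1
      apply Finset.sum_congr rfl
      intro i hi
      have := Finset.mem_range.mp hi
      rw [if_neg (by omega)]
      ring) (m - 1) (by omega)
    simp at h2
  -- induction
  have key : ∀ i, 1 ≤ i → i ≤ m - 1 → ∃ ρ : ℕ → F, (∀ j < i, ρ j = 0) ∧
      ∀ u ∈ U, u ^ ((p ^ k) ^ (l + i)) = ∑ i ∈ range m, ρ i * u ^ ((p ^ k) ^ i) := by
    intro i hi1
    induction i, hi1 using Nat.le_induction with
    | base =>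
      intro _
      obtain ⟨ρ, hρ⟩ := exists_repr_pow hk hK hm (l + 1)
      refine ⟨ρ, ?_, hρ⟩
      intro j hj
      have hj0 : j = 0 := by omega
      subst hj0
      by_contra h0
      obtain ⟨u, hu, hne⟩ := hcon 1 le_rfl (by omega) ρ h0
      exact hne (hρ u hu)
    | succ i hi1 ih =>
      intro him
      obtain ⟨ρ, hρ0, hρ⟩ := ih (by omega)
      obtain ⟨m', rfl⟩ : ∃ m', m = m' + 1 := ⟨m - 1, by omega⟩
      rw [Nat.add_sub_cancel] at him
      -- new representation
      have hnew : ∀ u ∈ U, u ^ ((p ^ k) ^ (l + (i + 1))) =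
          ∑ j ∈ range (m' + 1), ((if j = 0 then 0 else ρ (j - 1) ^ (p ^ k)) +
            ρ m' ^ (p ^ k) * ω j) * u ^ ((p ^ k) ^ j) := by
        intro u hu
        have e1 : u ^ ((p ^ k) ^ (l + (i + 1))) = (u ^ ((p ^ k) ^ (l + i))) ^ (p ^ k) := by
          rw [← pow_mul u ((p ^ k) ^ (l + i)), ← pow_succ]; rfl
        have e2 := sum_pow_Q (p := p) (k := k) (range (m' + 1)) 1
          (fun i => ρ i * u ^ ((p ^ k) ^ i))
        rw [pow_one] at e2
        rw [e1, hρ u hu, e2, Finset.sum_range_succ]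
        have e3 : (ρ m' * u ^ (p ^ k) ^ m') ^ p ^ k =
            ∑ j ∈ range (m' + 1), ρ m' ^ (p ^ k) * ω j * u ^ ((p ^ k) ^ j) := by
          rw [mul_pow, ← pow_mul u ((p ^ k) ^ m'), ← pow_succ, hω u hu, Finset.mul_sum]
          apply Finset.sum_congr rfl
          intro j _
          ring
        simp_rw [add_mul]
        rw [Finset.sum_add_distrib, e3]
        congr 1
        rw [Finset.sum_range_succ']
        simp only [Nat.add_eq_zero_iff, one_ne_zero, and_false, if_false, Nat.add_sub_cancel,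
          if_true, zero_mul, add_zero]
        apply Finset.sum_congr rfl
        intro j _
        rw [mul_pow, ← pow_mul u ((p ^ k) ^ j), ← pow_succ]
      have hm0 : ρ m' ^ (p ^ k) = 0 := by
        by_contra hne
        obtain ⟨u, hu, hne'⟩ := hcon (i + 1) (by omega) (by omega)
          (fun j => (if j = 0 then 0 else ρ (j - 1) ^ (p ^ k)) + ρ m' ^ (p ^ k) * ω j) (by
          show (if (0 : ℕ) = 0 then (0 : F) else ρ (0 - 1) ^ (p ^ k)) + ρ m' ^ (p ^ k) * ω 0 ≠ 0
          rw [if_pos rfl, zero_add]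
          exact mul_ne_zero hne hω0)
        exact hne' (hnew u hu)
      refine ⟨_, ?_, hnew⟩
      intro j hj
      rw [hm0, zero_mul, add_zero]
      split_ifs with hj0
      · rfl
      · rw [hρ0 (j - 1) (by omega), zero_pow (Q_pos (p := p) (k := k)).ne']
  obtain ⟨ρ, hρ0, hρ⟩ := key (m - 1) (by omega) le_rfl
  obtain ⟨m', rfl⟩ : ∃ m', m = m' + 1 := ⟨m - 1, by omega⟩
  rw [Nat.add_sub_cancel] at hρ0 hρ
  have h1 : ∀ u ∈ U, u ^ ((p ^ k) ^ (l + m')) = ρ m' * u ^ ((p ^ k) ^ m') := by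
    intro u hu
    rw [hρ u hu, Finset.sum_range_succ, Finset.sum_eq_zero, zero_add]
    intro j hj
    rw [hρ0 j (Finset.mem_range.mp hj), zero_mul]
  have h2 : ρ m' = 1 := by
    have := h1 1 h1U
    simpa using this.symm
  obtain ⟨u, hu, hne⟩ := hl
  apply hne
  have h3 := h1 u hu
  rw [h2, one_mul, pow_add, pow_mul] at h3
  have h4 : (u ^ ((p ^ k) ^ l) - u) ^ ((p ^ k) ^ m') = 0 := by
    rw [sub_pow_Q, h3, sub_self]
  have h5 := (pow_eq_zero_iff (pow_pos (Q_pos (p := p) (k := k)) m').ne').mp h4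
  exact sub_eq_zero.mp h5

end US

end Pool.Agent.MP_7e38b0_nt
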