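import Pool.Agent.MP_7e38b0_nt.PartD
import Pool.Agent.MP_7e38b0_nt.Sections
import Pool.Agent.MP_7e38b0_nt.USpace

set_option autoImplicit false
set_option linter.unusedSectionVars false
set_option linter.unusedVariables false

namespace Pool.Agent.MP_7e38b0_nt

open Polynomial

section Rot

/-- rotation of the base-`Q` digits of an exponent -/
def rot (Q n' j e : ℕ) : ℕ := Q ^ j * (e % Q ^ (n' - j)) + e / Q ^ (n' - j)

theorem rot_lt {Q n' j e : ℕ} (hQ : 0 < Q) (hj : j ≤ n') (he : e < Q ^ n') :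
    rot Q n' j e < Q ^ n' := by
  unfold rot
  have h0 : 0 < Q ^ (n' - j) := pow_pos hQ _
  have h1 : e % Q ^ (n' - j) + 1 ≤ Q ^ (n' - j) := Nat.mod_lt _ h0
  have h2 : Q ^ n' = Q ^ j * Q ^ (n' - j) := by rw [← pow_add, Nat.add_sub_cancel' hj]
  have h3 : e / Q ^ (n' - j) < Q ^ j := by
    rw [Nat.div_lt_iff_lt_mul h0, ← h2]; exact he
  calc Q ^ j * (e % Q ^ (n' - j)) + e / Q ^ (n' - j)
      < Q ^ j * (e % Q ^ (n' - j)) + Q ^ j := by omega
    _ = Q ^ j * (e % Q ^ (n' - j) + 1) := by ring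
    _ ≤ Q ^ j * Q ^ (n' - j) := Nat.mul_le_mul_left _ h1
    _ = Q ^ n' := h2.symm

variable {F : Type*} [Field F] [Fintype F]

/-- the corresponding operation on polynomials -/
noncomputable def rotP (Q n' j : ℕ) (P : F[X]) : F[X] :=
  P.sum (fun e c => monomial (rot Q n' j e) (c ^ (Q ^ j)))

theorem natDegree_rotP_lt {Q n' j : ℕ} (hQ : 0 < Q) (hj : j ≤ n') (P : F[X])
    (hP : P.natDegree < Q ^ n') : (rotP Q n' j P).natDegree < Q ^ n' := by
  have hpos : 0 < Q ^ n' := pow_pos hQ _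
  rw [Nat.lt_iff_le_pred hpos]
  unfold rotP
  rw [Polynomial.sum_def]
  apply natDegree_sum_le_of_forall_le
  intro e he
  refine (natDegree_monomial_le _).trans ?_
  rw [← Nat.lt_iff_le_pred hpos]
  exact rot_lt hQ hj ((le_natDegree_of_mem_supp e he).trans_lt hP)

theorem coeff_rotP_ne {Q n' j : ℕ} (P : F[X]) (e' : ℕ) (h : (rotP Q n' j P).coeff e' ≠ 0) :
    ∃ e, P.coeff e ≠ 0 ∧ rot Q n' j e = e' := by
  by_contra hcon
  push Not at hcon
  apply h
  unfold rotP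
  rw [Polynomial.sum_def, finsetSum_coeff]
  apply Finset.sum_eq_zero
  intro e he
  rw [coeff_monomial, if_neg]
  exact hcon e (mem_support_iff.mp he)

theorem eval_rotP {p : ℕ} [hp : Fact p.Prime] [CharP F p] {k n' j : ℕ} (hj : j ≤ n')
    (hn' : Fintype.card F = (p ^ k) ^ n') (P : F[X]) (τ : F) :
    (rotP (p ^ k) n' j P).eval τ = (P.eval τ) ^ ((p ^ k) ^ j) := by
  unfold rotP
  rw [Polynomial.sum_def, eval_finsetSum, eval_eq_sum, Polynomial.sum_def, sum_pow_Q]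
  apply Finset.sum_congr rfl
  intro e _
  rw [eval_monomial, mul_pow]
  congr 1
  set Q := p ^ k with hQ
  have h1 : ∀ a : ℕ, τ ^ (Q ^ n' * a) = τ ^ a := by
    intro a
    rw [pow_mul, ← hn', FiniteField.pow_card]
  have h2 : Q ^ n' = Q ^ j * Q ^ (n' - j) := by rw [← pow_add, Nat.add_sub_cancel' hj]
  unfold rot
  have h3 := Nat.div_add_mod e (Q ^ (n' - j))
  have h4 : Q ^ j * (e % Q ^ (n' - j)) + Q ^ n' * (e / Q ^ (n' - j)) = e * Q ^ j := by
    calc Q ^ j * (e % Q ^ (n' - j)) + Q ^ n' * (e / Q ^ (n' - j))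
        = (Q ^ (n' - j) * (e / Q ^ (n' - j)) + e % Q ^ (n' - j)) * Q ^ j := by rw [h2]; ring
      _ = e * Q ^ j := by rw [h3]
  calc τ ^ (Q ^ j * (e % Q ^ (n' - j)) + e / Q ^ (n' - j))
      = τ ^ (Q ^ j * (e % Q ^ (n' - j))) * τ ^ (e / Q ^ (n' - j)) := pow_add _ _ _
    _ = τ ^ (Q ^ j * (e % Q ^ (n' - j))) * τ ^ (Q ^ n' * (e / Q ^ (n' - j))) := by
        rw [h1 (e / Q ^ (n' - j))]
    _ = τ ^ (Q ^ j * (e % Q ^ (n' - j)) + Q ^ n' * (e / Q ^ (n' - j))) := (pow_add _ _ _).symm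
    _ = τ ^ (e * Q ^ j) := by rw [h4]
    _ = (τ ^ e) ^ Q ^ j := pow_mul _ _ _

/-- the section of the twisted polynomial -/
theorem coeff_R {p : ℕ} [hp : Fact p.Prime] [CharP F p] {k v s1 : ℕ} (hv : v < p ^ k)
    (A B C1 D1 E Y Yj P : F[X]) (ρ : F)
    (hP : P * D1 ^ p ^ k = (A ^ p ^ k + X * B ^ p ^ k) ^ v * C1 ^ p ^ k)
    (hE : E ^ p ^ k = (A ^ p ^ k + X * B ^ p ^ k) * P ^ s1 * Y ^ (p ^ k))
    (hD : D1 ≠ 0) (hY : Y ≠ 0) (e : ℕ) (he : e % p ^ k = v) :
    (P * (C ρ + P ^ s1 * Yj ^ (p ^ k)) ^ v).coeff e = ρ ^ v * P.coeff e := by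
  obtain ⟨σ, hσ⟩ := exists_pow_char_root (F := F) p k ρ
  set R : F[X] := P * (C ρ + P ^ s1 * Yj ^ (p ^ k)) ^ v with hR
  have hQ : 0 < p ^ k := pow_pos hp.out.pos k
  have h1 : R * (D1 * Y ^ v) ^ p ^ k =
      ((C σ * A * Y + E * Yj) ^ p ^ k + X * (C σ * B * Y) ^ p ^ k) ^ v * C1 ^ p ^ k := by
    have e1 : (C σ * A * Y + E * Yj) ^ p ^ k + X * (C σ * B * Y) ^ p ^ k =
        (A ^ p ^ k + X * B ^ p ^ k) * Y ^ p ^ k * (C ρ + P ^ s1 * Yj ^ (p ^ k)) := by
      rw [add_pow_expChar_pow, mul_pow, mul_pow, mul_pow, mul_pow, mul_pow, hE, ← C_pow, hσ]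
      ring
    rw [e1, hR, mul_pow D1]
    have e2 : (Y ^ v) ^ p ^ k = (Y ^ p ^ k) ^ v := by rw [← pow_mul, ← pow_mul, mul_comm]
    rw [e2, mul_pow ((A ^ p ^ k + X * B ^ p ^ k) * Y ^ p ^ k), mul_pow (A ^ p ^ k + X * B ^ p ^ k)]
    calc P * (C ρ + P ^ s1 * Yj ^ p ^ k) ^ v * (D1 ^ p ^ k * (Y ^ p ^ k) ^ v)
        = (P * D1 ^ p ^ k) * (Y ^ p ^ k) ^ v * (C ρ + P ^ s1 * Yj ^ p ^ k) ^ v := by ring
      _ = _ := by rw [hP]; ring
  have h2 := sec_P p k v hv _ _ _ _ _ h1 v hv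
  have h3 := sec_P p k v hv _ _ _ _ _ hP v hv
  rw [Nat.choose_self, Nat.cast_one, one_mul, Nat.sub_self, pow_zero, mul_one] at h2 h3
  have h4 : expand F (p ^ k) (sec (p ^ k) v R) = C (ρ ^ v) * expand F (p ^ k) (sec (p ^ k) v P) := by
    have hne : (D1 * Y ^ v) ^ p ^ k ≠ 0 := pow_ne_zero _ (mul_ne_zero hD (pow_ne_zero _ hY))
    apply mul_right_cancel₀ hne
    rw [h2]
    have e3 : ((C σ * B * Y) ^ v * C1) ^ p ^ k = C (ρ ^ v) * (Y ^ v) ^ p ^ k * (B ^ v * C1) ^ p ^ k := by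
      have : (C (ρ ^ v) : F[X]) = ((C σ) ^ v) ^ p ^ k := by
        rw [← C_pow, ← C_pow, ← pow_mul, mul_comm v, pow_mul, hσ]
      rw [this, ← mul_pow, ← mul_pow]
      congr 1
      ring
    rw [e3, ← h3]
    ring
  have h5 := congrArg (fun f : F[X] => f.coeff (e / p ^ k * p ^ k)) h4
  simp only [coeff_C_mul] at h5
  rw [coeff_expand hQ, coeff_expand hQ, if_pos (Dvd.intro_left _ rfl),
    Nat.mul_div_cancel _ hQ, coeff_sec hQ.ne', if_pos (Dvd.intro_left _ rfl),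
    coeff_sec hQ.ne'] at h5
  have h6 : e / p ^ k * p ^ k + v = e := by
    have := Nat.div_add_mod e (p ^ k)
    rw [he] at this
    rw [mul_comm]; exact this
  rw [h6] at h5
  exact h5

end Rot

section NN

/-- the numbers `(Q^i - 1)/v` -/
def NN (s1 Q : ℕ) : ℕ → ℕ
  | 0 => 0
  | i + 1 => s1 + Q * NN s1 Q i

theorem NN_zero (s1 Q : ℕ) : NN s1 Q 0 = 0 := rfl

theorem NN_succ (s1 Q i : ℕ) : NN s1 Q (i + 1) = s1 + Q * NN s1 Q i := rfl

theorem v_mul_NN {v s1 Q : ℕ} (h : v * s1 + 1 = Q) (i : ℕ) : v * NN s1 Q i + 1 = Q ^ i := by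
  induction i with
  | zero => simp [NN_zero]
  | succ i ih =>
    rw [NN_succ, pow_succ, ← ih]
    calc v * (s1 + Q * NN s1 Q i) + 1 = (v * s1 + 1) + Q * (v * NN s1 Q i) := by ring
      _ = (v * NN s1 Q i + 1) * Q := by rw [h]; ring

theorem NN_mono {s1 Q : ℕ} (hs : 0 < s1) (hQ : 0 < Q) {i j : ℕ} (h : i ≤ j) :
    NN s1 Q i ≤ NN s1 Q j := by
  induction j, h using Nat.le_induction with
  | base => exact le_rfl
  | succ j _ ih =>
    rw [NN_succ]
    calc NN s1 Q i ≤ NN s1 Q j := ih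
      _ ≤ Q * NN s1 Q j := Nat.le_mul_of_pos_left _ hQ
      _ ≤ _ := Nat.le_add_left _ _

theorem NN_strictMono {s1 Q : ℕ} (hs : 0 < s1) (hQ : 0 < Q) : StrictMono (NN s1 Q) := by
  apply strictMono_nat_of_lt_succ
  intro j
  rw [NN_succ]
  have : NN s1 Q j ≤ Q * NN s1 Q j := Nat.le_mul_of_pos_left _ hQ
  omega

end NN

section NF

variable {F : Type*} [Field F] [Fintype F] {p : ℕ} [hp : Fact p.Prime] [CharP F p]
variable {k m : ℕ} {K : Subfield F} {U : Submodule K F}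

theorem pow_Q_eq {v s1 : ℕ} (hv : v * s1 + 1 = p ^ k) (i : ℕ) (u : F) :
    u ^ ((p ^ k) ^ i) = u * (u ^ v) ^ (NN s1 (p ^ k) i) := by
  rw [← v_mul_NN hv i, pow_succ, ← pow_mul, mul_comm]

/-- the digit condition in the non-field case -/
theorem hdig_nonfield {v s1 n' n2 : ℕ} (hk : 1 ≤ k) (hK : Nat.card K = p ^ k)
    (hm : Module.finrank K U = m) (hm2 : 2 ≤ m) (h1U : (1 : F) ∈ U)
    (hn' : Fintype.card F = (p ^ k) ^ n')
    (hmin : ∀ l, 1 ≤ l → l < n2 → ∃ u ∈ U, u ^ ((p ^ k) ^ l) ≠ u)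
    (hv : v * s1 + 1 = p ^ k) (hv0 : 0 < v) (hs1 : 0 < s1) (hvQ : v < p ^ k) (hn2 : 1 ≤ n2)
    (P : F[X]) (hval : ∀ τ : F, ∃ u ∈ U, P.eval τ = u ^ v)
    (hdegP : P.natDegree * (p ^ k) ^ (m - 1) < (p ^ k) ^ n')
    (A B C1 D1 E Y : F[X]) (hD : D1 ≠ 0) (hY : Y ≠ 0)
    (hP : P * D1 ^ p ^ k = (A ^ p ^ k + X * B ^ p ^ k) ^ v * C1 ^ p ^ k)
    (hE : E ^ p ^ k = (A ^ p ^ k + X * B ^ p ^ k) * P ^ s1 * Y ^ (p ^ k)) :
    ∀ e, P.coeff e ≠ 0 → e % p ^ k = v → e % (p ^ k) ^ n2 = v := by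
  intro e' he' hev
  have hQ : 0 < p ^ k := pow_pos hp.out.pos k
  have hQ1 : 1 < p ^ k := Q_gt hk
  have hdegP' : P.natDegree < (p ^ k) ^ n' :=
    lt_of_le_of_lt (Nat.le_mul_of_pos_right _ (pow_pos hQ _)) hdegP
  have hle : ∀ e, P.coeff e ≠ 0 → e * (p ^ k) ^ (m - 1) < (p ^ k) ^ n' := fun e he =>
    lt_of_le_of_lt (Nat.mul_le_mul_right _ (le_natDegree_of_ne_zero he)) hdegP
  have hdigit : ∀ l, 1 ≤ l → l < n2 → e' / (p ^ k) ^ l % (p ^ k) = 0 := by
    intro l hl1 hl2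
    rcases Nat.lt_or_ge n' (l + m) with hlarge | hsmall
    · -- high digits vanish by the degree bound
      have h1 : e' < (p ^ k) ^ l := by
        have h2 := hle e' he'
        apply Nat.lt_of_mul_lt_mul_right (a := (p ^ k) ^ (m - 1))
        refine lt_of_lt_of_le h2 ?_
        rw [← pow_add]
        exact Nat.pow_le_pow_right hQ (by omega)
      rw [Nat.div_eq_of_lt h1, Nat.zero_mod]
    · obtain ⟨i, hi1, him, ρ, hρ0, hρ⟩ := exists_rot hk hK hm hm2 h1U l (hmin l hl1 hl2)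
      have hj : l + i ≤ n' := by omega
      -- the roots of the coefficients
      have hr : ∀ j, ∃ d : F, d ^ (p ^ k) = ρ j := fun j => exists_pow_char_root (F := F) p k (ρ j)
      choose σ hσ using hr
      obtain ⟨m', rfl⟩ : ∃ m', m = m' + 2 := ⟨m - 2, by omega⟩
      set Yj : F[X] := ∑ i ∈ Finset.range (m' + 1), C (σ (i + 1)) * P ^ NN s1 (p ^ k) i with hYj
      have hYjdeg : Yj.natDegree ≤ NN s1 (p ^ k) m' * P.natDegree := by
        apply natDegree_sum_le_of_forall_le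
        intro i hi
        refine (natDegree_C_mul_le _ _).trans ?_
        rw [natDegree_pow]
        apply Nat.mul_le_mul_right
        exact NN_mono hs1 hQ (by have := Finset.mem_range.mp hi; omega)
      have hWdeg : (C (ρ 0) + P ^ s1 * Yj ^ (p ^ k)).natDegree ≤
          NN s1 (p ^ k) (m' + 1) * P.natDegree := by
        refine (natDegree_add_le _ _).trans (max_le (by rw [natDegree_C]; exact Nat.zero_le _) ?_)
        refine natDegree_mul_le.trans ?_
        rw [natDegree_pow, natDegree_pow, NN_succ]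
        calc s1 * P.natDegree + p ^ k * Yj.natDegree
            ≤ s1 * P.natDegree + p ^ k * (NN s1 (p ^ k) m' * P.natDegree) :=
              Nat.add_le_add_left (Nat.mul_le_mul_left _ hYjdeg) _
          _ = _ := by ring
      have hRdeg : (P * (C (ρ 0) + P ^ s1 * Yj ^ (p ^ k)) ^ v).natDegree < (p ^ k) ^ n' := by
        refine lt_of_le_of_lt ?_ hdegP
        refine natDegree_mul_le.trans ?_
        rw [natDegree_pow, Nat.add_sub_cancel_right (n := m' + 1) (m := 1), ← v_mul_NN hv (m' + 1)]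
        calc P.natDegree + v * (C (ρ 0) + P ^ s1 * Yj ^ (p ^ k)).natDegree
            ≤ P.natDegree + v * (NN s1 (p ^ k) (m' + 1) * P.natDegree) :=
              Nat.add_le_add_left (Nat.mul_le_mul_left _ hWdeg) _
          _ = _ := by ring
      have hReq : rotP (p ^ k) n' (l + i) P = P * (C (ρ 0) + P ^ s1 * Yj ^ (p ^ k)) ^ v := by
        apply eq_of_natDegree_lt_card_of_eval_eq' _ _ (Finset.univ : Finset F)
        · intro τ _
          rw [eval_rotP hj hn']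
          obtain ⟨u, hu, hPu⟩ := hval τ
          have e1 : (P.eval τ) ^ ((p ^ k) ^ (l + i)) = (u ^ ((p ^ k) ^ (l + i))) ^ v := by
            rw [hPu, ← pow_mul u v, ← pow_mul u ((p ^ k) ^ (l + i)) v, mul_comm]
          have e2 : u ^ ((p ^ k) ^ (l + i)) = u * (C (ρ 0) + P ^ s1 * Yj ^ (p ^ k)).eval τ := by
            rw [hρ u hu, Finset.sum_range_succ']
            have e3 := sum_pow_Q (F := F) (p := p) (k := k) (Finset.range (m' + 1)) 1
              (fun i => σ (i + 1) * (u ^ v) ^ NN s1 (p ^ k) i)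
            rw [pow_one] at e3
            have e4 : Yj.eval τ = ∑ i ∈ Finset.range (m' + 1),
                σ (i + 1) * (u ^ v) ^ NN s1 (p ^ k) i := by
              rw [hYj, eval_finsetSum]
              apply Finset.sum_congr rfl
              intro i _
              rw [eval_mul, eval_C, eval_pow, hPu]
            rw [eval_add, eval_C, eval_mul, eval_pow, eval_pow, e4, e3, hPu, mul_add, pow_zero,
              pow_one, mul_comm (ρ 0) u, add_comm]
            congr 1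
            rw [Finset.mul_sum, Finset.mul_sum]
            apply Finset.sum_congr rfl
            intro i _
            rw [pow_Q_eq hv (i + 1) u, NN_succ, pow_add, mul_pow, hσ, ← pow_mul (u ^ v) _ (p ^ k),
              mul_comm (NN s1 (p ^ k) i) (p ^ k)]
            ring
          rw [e1, e2, eval_mul, eval_pow, mul_pow, ← hPu]
        · rw [Finset.card_univ, hn']
          exact max_lt (natDegree_rotP_lt hQ hj P hdegP') hRdeg
      have hcoeff := coeff_R (s1 := s1) hvQ A B C1 D1 E Y Yj P (ρ 0) hP hE hD hY e' hev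
      rw [← hReq] at hcoeff
      have hne : (rotP (p ^ k) n' (l + i) P).coeff e' ≠ 0 := by
        rw [hcoeff]
        exact mul_ne_zero (pow_ne_zero _ hρ0) he'
      obtain ⟨e, he, hrot⟩ := coeff_rotP_ne P e' hne
      have h1 : e / (p ^ k) ^ (n' - (l + i)) < (p ^ k) ^ l := by
        rw [Nat.div_lt_iff_lt_mul (pow_pos hQ _), ← pow_add]
        have h2 := hle e he
        apply Nat.lt_of_mul_lt_mul_right (a := (p ^ k) ^ i)
        rw [← pow_add]
        have h3 : l + (n' - (l + i)) + i = n' := by omega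
        rw [h3]
        refine lt_of_le_of_lt (Nat.mul_le_mul_left _ ?_) h2
        exact Nat.pow_le_pow_right hQ (by omega)
      have h2 : e' / (p ^ k) ^ l = (p ^ k) ^ i * (e % (p ^ k) ^ (n' - (l + i))) := by
        rw [← hrot]
        unfold rot
        rw [pow_add (p ^ k) l i, mul_assoc, Nat.mul_add_div (pow_pos hQ _),
          Nat.div_eq_of_lt h1, add_zero]
      rw [h2]
      apply Nat.mod_eq_zero_of_dvd
      exact (dvd_pow_self _ (by omega)).mul_right _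
  -- conclusion
  have key : ∀ l, 1 ≤ l → l ≤ n2 → e' % (p ^ k) ^ l = v := by
    intro l hl1
    induction l, hl1 using Nat.le_induction with
    | base => intro _; rw [pow_one]; exact hev
    | succ l hl1 ih =>
      intro hl2
      rw [Nat.mod_pow_succ, ih (by omega), hdigit l hl1 (by omega), mul_zero, add_zero]
  exact key n2 hn2 le_rfl

end NF

end Pool.Agent.MP_7e38b0_nt
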