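import Pool.Agent.MP_7e38b0_nt.EWorld

set_option autoImplicit false
set_option linter.unusedSectionVars false
set_option linter.unusedVariables false

namespace Pool.Agent.MP_7e38b0_nt

open MvPolynomial

section UFD

theorem ufd_pow {R : Type*} [CommRing R] [IsDomain R] [UniqueFactorizationMonoid R]
    (v : ℕ) (hv : 0 < v) (G : R) (hG : G ≠ 0)
    (h : ∀ π : R, Irreducible π → v ∣ multiplicity π G) : ∃ y u : R, IsUnit u ∧ G = u * y ^ v := by
  have hwf : WellFounded (DvdNotUnit (α := R)) := wellFounded_dvdNotUnit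
  induction G using hwf.induction with
  | _ G ih =>
    by_cases hu : IsUnit G
    · exact ⟨1, G, hu, by simp⟩
    · obtain ⟨π, hπ, hdvd⟩ := WfDvdMonoid.exists_irreducible_factor hu hG
      have hπp : Prime π := hπ.prime
      have hfin : FiniteMultiplicity π G := FiniteMultiplicity.of_prime_left hπp hG
      have h1 : multiplicity π G ≠ 0 := by
        intro h0
        rw [multiplicity_eq_zero] at h0
        exact h0 hdvd
      have h2 : v ≤ multiplicity π G := Nat.le_of_dvd (Nat.pos_of_ne_zero h1) (h π hπ)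
      have h3 : π ^ v ∣ G := (pow_dvd_pow π h2).trans (pow_multiplicity_dvd π G)
      obtain ⟨G', hG'⟩ := h3
      have hG'0 : G' ≠ 0 := by rintro rfl; rw [mul_zero] at hG'; exact hG hG'
      have hπv : π ^ v ≠ 0 := pow_ne_zero _ hπ.ne_zero
      obtain ⟨y, u, hu', hy⟩ := ih G' ⟨hG'0, π ^ v, (by
          intro hun
          rw [isUnit_pow_iff hv.ne'] at hun
          exact hπ.not_isUnit hun), by rw [hG']; ring⟩ hG'0 (by
        intro π' hπ'
        have hp' : Prime π' := hπ'.prime
        have hfG : FiniteMultiplicity π' (π ^ v * G') :=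
          FiniteMultiplicity.of_prime_left hp' (mul_ne_zero hπv hG'0)
        have hfp : FiniteMultiplicity π' π := FiniteMultiplicity.of_prime_left hp' hπ.ne_zero
        have h4 := multiplicity_mul hp' hfG
        have h5 : multiplicity π' (π ^ v) = v * multiplicity π' π := hfp.multiplicity_pow hp'
        have h6 := h π' hπ'
        rw [hG', h4, h5] at h6
        exact (Nat.dvd_add_right (dvd_mul_right _ _)).mp h6)
      exact ⟨π * y, u, hu', by rw [hG', hy]; ring⟩

end UFD

section Sym

variable {F : Type*} [Field F] [Fintype F] (p : ℕ) [hp : Fact p.Prime] [CharP F p]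

/-- the automorphism -/
noncomputable def Sg (t N : ℕ) : MvPolynomial (Fin (N + 1)) F ≃+* MvPolynomial (Fin (N + 1)) F :=
  (MvPolynomial.mapEquiv (Fin (N + 1)) (iterateFrobeniusEquiv F p t)).trans
    (MvPolynomial.renameEquiv F (finRotate (N + 1))).toRingEquiv

theorem Sg_C (t N : ℕ) (c : F) : Sg p t N (C c) = C (c ^ p ^ t) := by
  unfold Sg
  simp [iterateFrobeniusEquiv_apply, iterateFrobenius_def]

theorem Sg_X (t N : ℕ) (i : Fin (N + 1)) : Sg (F := F) p t N (X i) = X (finRotate (N + 1) i) := by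
  unfold Sg
  simp

theorem degreeOf_Sg (t N : ℕ) (G : MvPolynomial (Fin (N + 1)) F) (i : Fin (N + 1)) :
    (Sg p t N G).degreeOf (finRotate (N + 1) i) = G.degreeOf i := by
  unfold Sg
  simp only [RingEquiv.trans_apply, AlgEquiv.coe_ringEquiv, renameEquiv_apply]
  rw [degreeOf_rename_of_injective (finRotate (N + 1)).injective]
  rw [mapEquiv_apply]
  unfold degreeOf
  rw [degrees_map_of_injective]
  exact (iterateFrobeniusEquiv F p t).injective

theorem eval_ev_Sg (t N : ℕ) (hcard : Fintype.card F = (p ^ t) ^ (N + 1)) (τ : F)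
    (G : MvPolynomial (Fin (N + 1)) F) :
    (ev (p ^ t) (N + 1) (Sg p t N G)).eval τ = ((ev (p ^ t) (N + 1) G).eval τ) ^ p ^ t := by
  have h : ((Polynomial.evalRingHom τ).comp
      (((ev (F := F) (p ^ t) (N + 1)).toRingHom).comp (Sg (F := F) p t N).toRingHom)) =
      (iterateFrobenius F p t).comp ((Polynomial.evalRingHom τ).comp
        (ev (F := F) (p ^ t) (N + 1)).toRingHom) := by
    apply MvPolynomial.ringHom_ext
    · intro c
      change (Polynomial.evalRingHom τ) (ev (p ^ t) (N + 1) (Sg p t N (C c))) =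
        iterateFrobenius F p t ((Polynomial.evalRingHom τ) (ev (p ^ t) (N + 1) (C c)))
      rw [iterateFrobenius_def, Sg_C]
      have h1 : ∀ a : F, (ev (p ^ t) (N + 1)) (C a) = Polynomial.C a := by
        intro a
        unfold ev
        rw [aeval_C]; rfl
      rw [h1, h1]
      simp
    · intro i
      change (Polynomial.evalRingHom τ) (ev (p ^ t) (N + 1) (Sg p t N (X i))) =
        iterateFrobenius F p t ((Polynomial.evalRingHom τ) (ev (p ^ t) (N + 1) (X i)))
      rw [iterateFrobenius_def, Sg_X]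
      unfold ev
      rw [aeval_X, aeval_X]
      simp only [Polynomial.coe_evalRingHom, Polynomial.eval_pow, Polynomial.eval_X]
      rw [← pow_mul τ ((p ^ t) ^ (i : ℕ)), ← pow_succ]
      induction i using Fin.lastCases with
      | last =>
        rw [finRotate_last]
        simp only [Fin.val_zero, pow_zero, pow_one, Fin.val_last]
        rw [← hcard, FiniteField.pow_card]
      | cast i =>
        rw [finRotate_apply, Fin.coeSucc_eq_succ]
        simp
  have h1 := congrArg (fun f => f G) h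
  simpa [iterateFrobenius_def] using h1

variable {p}
variable {b N k v r : ℕ} {A B C1 D1 P : Polynomial F}

theorem EDatum.degreeOf_lt (D : EDatum p b N k v r A B C1 D1 P) (i : Fin (N + 1)) :
    (lift b (N + 1) P).degreeOf i < b := by
  have h := D.hbpos
  refine lt_of_le_of_lt (degreeOf_lift_le P i (b - 1) ?_) (by omega)
  intro e _
  have := Nat.mod_lt (e / b ^ (i : ℕ)) h
  omega

theorem EDatum.Sg_lift {t : ℕ} (D : EDatum p (p ^ t) N k v r A B C1 D1 P) :
    Sg p t N (lift (p ^ t) (N + 1) P) = lift (p ^ t) (N + 1) P := by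
  have hdeg : ∀ i, (Sg p t N (lift (p ^ t) (N + 1) P)).degreeOf i < p ^ t := by
    intro i
    obtain ⟨j, rfl⟩ := (finRotate (N + 1)).surjective i
    rw [degreeOf_Sg]
    exact D.degreeOf_lt j
  apply ev_injective' (b := p ^ t) _ _ hdeg D.degreeOf_lt
  rw [ev_lift P D.degP]
  apply Polynomial.eq_of_natDegree_lt_card_of_eval_eq' _ _ (Finset.univ : Finset F)
  · intro τ _
    rw [eval_ev_Sg p t N D.hcard, ev_lift P D.degP, D.hfix]
  · rw [Finset.card_univ, D.hcard]
    exact max_lt (natDegree_ev_lt D.hbpos _ hdeg) D.degP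

theorem EDatum.degreeOf_eq {t : ℕ} (D : EDatum p (p ^ t) N k v r A B C1 D1 P) (i : Fin (N + 1)) :
    (lift (p ^ t) (N + 1) P).degreeOf i = (lift (p ^ t) (N + 1) P).degreeOf (Fin.last N) := by
  have h : ∀ i : Fin (N + 1), (lift (p ^ t) (N + 1) P).degreeOf (finRotate (N + 1) i) =
      (lift (p ^ t) (N + 1) P).degreeOf i := by
    intro i
    have h1 := degreeOf_Sg p t N (lift (p ^ t) (N + 1) P) i
    rw [D.Sg_lift] at h1
    exact h1
  induction i using Fin.reverseInduction with
  | last => rfl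
  | cast i ih =>
    have h1 := h i.castSucc
    rw [finRotate_apply, Fin.coeSucc_eq_succ] at h1
    rw [← h1, ih]

theorem EDatum.hdegs {t : ℕ} (D : EDatum p (p ^ t) N k v r A B C1 D1 P) (i : Fin (N + 1)) :
    r * (lift (p ^ t) (N + 1) P).degreeOf i < p ^ t := by
  rw [D.degreeOf_eq i]
  have hb := D.hbpos
  have hbN : 0 < (p ^ t) ^ N := pow_pos hb N
  have h1 : (lift (p ^ t) (N + 1) P).degreeOf (Fin.last N) ≤ P.natDegree / (p ^ t) ^ N := by
    apply degreeOf_lift_le
    intro e he
    rw [Fin.val_last]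
    refine (Nat.mod_le _ _).trans ?_
    exact Nat.div_le_div_right (Polynomial.le_natDegree_of_ne_zero he)
  have h2 : r * (P.natDegree / (p ^ t) ^ N) < p ^ t := by
    apply Nat.lt_of_mul_lt_mul_right (a := (p ^ t) ^ N)
    calc r * (P.natDegree / (p ^ t) ^ N) * (p ^ t) ^ N
        = r * (P.natDegree / (p ^ t) ^ N * (p ^ t) ^ N) := by ring
      _ ≤ r * P.natDegree := Nat.mul_le_mul_left _ (Nat.div_mul_le_self _ _)
      _ < (p ^ t) ^ (N + 1) := D.hdeg
      _ = p ^ t * (p ^ t) ^ N := by ring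
  exact lt_of_le_of_lt (Nat.mul_le_mul_left _ h1) h2

theorem EDatum.v_pos (D : EDatum p b N k v r A B C1 D1 P) : 0 < v := by
  rcases Nat.eq_zero_or_pos v with h | h
  · exact absurd (h ▸ dvd_zero p) D.hv
  · exact h

theorem EDatum.P_ne (D : EDatum p b N k v r A B C1 D1 P) : P ≠ 0 := by
  rintro rfl
  have h := D.hP
  rw [zero_mul] at h
  have h1 := D.ev_hh 0 (Nat.zero_le _) (by
    rw [Nat.choose_zero_right]; exact hp.out.one_lt.ne' ∘ Nat.dvd_one.mp)
  unfold hh at h1
  have h2 : sec (p ^ k) (v - 0) (0 : Polynomial F) = 0 := by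
    ext n; rw [coeff_sec D.Qpos.ne']; simp
  rw [h2] at h1
  simp only [map_zero, mul_zero, zero_mul] at h1
  exact (pow_ne_zero _ (mul_ne_zero (mul_ne_zero (pow_ne_zero _ D.hB) (by simp)) D.hC)) h1.symm

theorem EDatum.lift_ne (D : EDatum p b N k v r A B C1 D1 P) : lift b (N + 1) P ≠ 0 := by
  intro h
  have := ev_lift P D.degP
  rw [h, map_zero] at this
  exact D.P_ne this.symm

/-- multiplicities of irreducible factors that involve `X_0` -/
theorem EDatum.mult_zero {t : ℕ} (D : EDatum p (p ^ t) N k v r A B C1 D1 P)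
    (π : MvPolynomial (Fin (N + 1)) F) (hπ : Irreducible π) (h0 : 0 < π.degreeOf 0) :
    v ∣ multiplicity π (lift (p ^ t) (N + 1) P) := by
  have hK := D.keyK D.hdegs
  have hπp : Prime π := hπ.prime
  have hnd : ¬ π ∣ hh p (p ^ t) N k v P 0 := by
    rintro ⟨g, hg⟩
    have hg0 : g ≠ 0 := by
      rintro rfl
      rw [mul_zero] at hg
      exact D.hh_zero_ne hg
    have h1 := D.degreeOf_hh_zero
    rw [hg, degreeOf_mul_eq hπ.ne_zero hg0] at h1
    omega
  have hG := D.lift_ne
  have hh0 := D.hh_zero_ne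
  have hL : (hh p (p ^ t) N k v P 0) ^ v * lift (p ^ t) (N + 1) P ≠ 0 :=
    mul_ne_zero (pow_ne_zero _ hh0) hG
  have hR : (X 0 * hh p (p ^ t) N k v P 0 + hh p (p ^ t) N k v P 1) ≠ 0 := by
    intro h
    rw [hK, h, zero_pow D.v_pos.ne', mul_zero] at hL
    exact hL rfl
  have h1 : multiplicity π ((hh p (p ^ t) N k v P 0) ^ v * lift (p ^ t) (N + 1) P) =
      multiplicity π (lift (p ^ t) (N + 1) P) := by
    rw [multiplicity_mul hπp (FiniteMultiplicity.of_prime_left hπp hL),
      multiplicity_eq_zero.mpr (fun h => hnd (hπp.dvd_of_dvd_pow h)), zero_add]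
  have h2 : multiplicity π (hh p (p ^ t) N k v P 0 *
      (X 0 * hh p (p ^ t) N k v P 0 + hh p (p ^ t) N k v P 1) ^ v) =
      v * multiplicity π (X 0 * hh p (p ^ t) N k v P 0 + hh p (p ^ t) N k v P 1) := by
    rw [multiplicity_mul hπp (FiniteMultiplicity.of_prime_left hπp (by rw [← hK]; exact hL)),
      multiplicity_eq_zero.mpr hnd, zero_add]
    exact (FiniteMultiplicity.of_prime_left hπp hR).multiplicity_pow hπp
  rw [← h1, hK, h2]
  exact dvd_mul_right _ _

theorem multiplicity_ringEquiv {R : Type*} [CommRing R] (e : R ≃+* R) (a b : R) :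
    multiplicity (e a) (e b) = multiplicity a b := by
  exact multiplicity_map_eq e

theorem EDatum.mult {t : ℕ} (D : EDatum p (p ^ t) N k v r A B C1 D1 P) (i : Fin (N + 1)) :
    ∀ π : MvPolynomial (Fin (N + 1)) F, Irreducible π → 0 < π.degreeOf i →
    v ∣ multiplicity π (lift (p ^ t) (N + 1) P) := by
  have hstep : ∀ i : Fin (N + 1), (∀ π : MvPolynomial (Fin (N + 1)) F, Irreducible π →
      0 < π.degreeOf (finRotate (N + 1) i) → v ∣ multiplicity π (lift (p ^ t) (N + 1) P)) →
      ∀ π : MvPolynomial (Fin (N + 1)) F, Irreducible π →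
      0 < π.degreeOf i → v ∣ multiplicity π (lift (p ^ t) (N + 1) P) := by
    intro i ih π hπ hi
    have h1 := ih (Sg p t N π) ((MulEquiv.irreducible_iff (Sg p t N)).mpr hπ)
      (by rw [degreeOf_Sg]; exact hi)
    rw [← D.Sg_lift, multiplicity_ringEquiv] at h1
    exact h1
  induction i using Fin.reverseInduction with
  | last =>
    apply hstep
    rw [finRotate_last]
    exact fun π hπ h0 => D.mult_zero π hπ h0
  | cast i ih =>
    apply hstep
    rw [finRotate_apply, Fin.coeSucc_eq_succ]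
    exact ih

/-- Final output of Part II. -/
theorem EDatum.main {t : ℕ} (D : EDatum p (p ^ t) N k v r A B C1 D1 P) :
    ∃ (c : F) (f : Polynomial F), c ≠ 0 ∧ P = Polynomial.C c * f ^ v := by
  obtain ⟨y, u, hu, hy⟩ := ufd_pow v D.v_pos (lift (p ^ t) (N + 1) P) D.lift_ne (by
    intro π hπ
    by_contra hcon
    have h0 : ∀ i, π.degreeOf i = 0 := by
      intro i
      by_contra hi
      exact hcon (D.mult i π hπ (Nat.pos_of_ne_zero hi))
    have h1 : π.totalDegree = 0 := by
      rw [totalDegree_eq_zero_iff]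
      intro m hm i
      have := monomial_le_degreeOf i hm
      rw [h0 i] at this
      omega
    rw [totalDegree_eq_zero_iff_eq_C] at h1
    apply hπ.not_isUnit
    rw [h1]
    apply IsUnit.map
    rw [isUnit_iff_ne_zero]
    intro hc
    rw [hc, C_0] at h1
    exact hπ.ne_zero h1)
  have h1 := congrArg (ev (p ^ t) (N + 1)) hy
  rw [ev_lift P D.degP, map_mul, map_pow] at h1
  have h2 : IsUnit (ev (p ^ t) (N + 1) u) := hu.map _
  obtain ⟨c, hc, hc'⟩ := Polynomial.isUnit_iff.mp h2
  refine ⟨c, ev (p ^ t) (N + 1) y, hc.ne_zero, ?_⟩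
  rw [h1, hc']

end Sym

end Pool.Agent.MP_7e38b0_nt
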