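import Pool.Agent.MP_7e38b0_nt.Count
import Pool.Agent.MP_7e38b0_nt.Rot
import Pool.Agent.MP_7e38b0_nt.Rep
import Pool.Agent.MP_7e38b0_nt.Sym

set_option autoImplicit false
set_option linter.unusedSectionVars false
set_option linter.unusedVariables false

namespace Pool.Agent.MP_7e38b0_nt

open Polynomial

section Cases

variable {F : Type*} [Field F] [Fintype F] {p : ℕ} [hp : Fact p.Prime] [CharP F p]

theorem not_dvd_of_mul (a b k : ℕ) (hk : 1 ≤ k) (h : a * b = p ^ k - 1) : ¬ p ∣ a := by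
  intro hd
  have h1 : p ∣ p ^ k - 1 := h ▸ hd.mul_right b
  have h2 : p ∣ p ^ k := dvd_pow_self p (by omega)
  have h3 : 1 ≤ p ^ k := Nat.one_le_pow _ _ hp.out.pos
  have h4 : p ∣ 1 := by
    have := (Nat.dvd_sub_iff_right h3 h2).mp h1
    exact this
  exact hp.out.one_lt.ne' (Nat.dvd_one.mp h4)

/-- the field case: `P` has all its values in `{0} ∪ μ_s`. -/
theorem field_case (n e s t : ℕ) (hn : Fintype.card F = p ^ n) (he : 1 ≤ e) (hen : e ∣ n)
    (hn0 : 0 < n) (hts : t * s = p ^ e - 1) (hs2 : 2 ≤ s)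
    (hs : ∀ j, 1 ≤ j → j < e → ¬ s ∣ p ^ j - 1) (P : F[X]) (hP : 0 < P.natDegree)
    (hdeg : s * P.natDegree < Fintype.card F)
    (hval : ∀ τ : F, P.eval τ = 0 ∨ (P.eval τ) ^ s = 1) (hroot : ∃ τ : F, P.eval τ = 0) :
    ∃ (c : F) (f : F[X]), c ≠ 0 ∧ P = C c * f ^ t := by
  have hpe : 1 < p ^ e := Q_gt he
  have hen' : e ≤ n := Nat.le_of_dvd hn0 hen
  have D : Datum p e t s (1 : F[X]) P :=
    { hk := he
      hv := hts
      hM1 := one_ne_zero
      hP := hP
      hr := by rw [natDegree_one]; omega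
      hdeg := by rw [natDegree_one, mul_zero, add_zero]; exact hdeg
      hz := fun τ => by
        rcases hval τ with h | h
        · exact Or.inl h
        · right; rw [eval_one, one_pow, mul_one, h]
      hroot := hroot
      hcase := Or.inr ⟨natDegree_one, hs⟩ }
  obtain ⟨A, B, C1, D1, hB, hC, hD, hPD, _⟩ := D.structure_P n hn hen'
  obtain ⟨d, hd⟩ := hen
  obtain ⟨N, rfl⟩ : ∃ N, d = N + 1 := by
    refine ⟨d - 1, ?_⟩
    rcases Nat.eq_zero_or_pos d with h | h
    · rw [h, mul_zero] at hd; omega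
    · omega
  have hcard : Fintype.card F = (p ^ e) ^ (N + 1) := by rw [hn, hd, pow_mul]
  have ht : t ≤ p ^ e - 1 := by rw [← hts]; exact Nat.le_mul_of_pos_right _ (by omega)
  have E : EDatum p (p ^ e) N e t s A B C1 D1 P :=
    { hQb := dvd_rfl
      hb := hpe
      hk := he
      hcard := hcard
      hvQ := by omega
      hv := not_dvd_of_mul t s e he hts
      hr := hs2
      hdeg := by rw [← hcard]; exact hdeg
      hfix := fun τ => by
        rcases hval τ with h | h
        · rw [h, zero_pow (by omega)]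
        · have h1 : p ^ e = s * t + 1 := by rw [mul_comm, hts]; omega
          rw [h1, pow_succ, pow_mul, h, one_pow, one_mul]
      hB := hB
      hC := hC
      hD := hD
      hP := hPD
      hdig := fun _ _ h => h
      hrep := fun c h1 h2 h3 => rep_one p e t s (by rw [mul_comm]; exact hts) hs2 hs c h1 h2 h3 }
  exact E.main

variable {k m : ℕ} {K : Subfield F} {U : Submodule K F}

/-- the case `m ≥ 2`. -/
theorem space_case (n' v s1 : ℕ) (hk : 1 ≤ k) (hK : Nat.card K = p ^ k)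
    (hm : Module.finrank K U = m) (hm2 : 2 ≤ m) (h1U : (1 : F) ∈ U)
    (hn' : Fintype.card F = (p ^ k) ^ n') (hn'1 : 1 ≤ n')
    (hv : v * s1 + 1 = p ^ k) (P : F[X]) (hP : 0 < P.natDegree)
    (hdeg : NN s1 (p ^ k) m * P.natDegree < Fintype.card F)
    (hV : Set.range (fun a : F => P.eval a) = (fun s : F => s ^ v) '' (U : Set F)) :
    ∃ (c : F) (f : F[X]), c ≠ 0 ∧ P = C c * f ^ v := by
  have hQ1 : 1 < p ^ k := Q_gt hk
  have hQ : 0 < p ^ k := by omega
  have hv0 : 0 < v := by
    rcases Nat.eq_zero_or_pos v with h | h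
    · rw [h, zero_mul] at hv; omega
    · exact h
  have hs1 : 0 < s1 := by
    rcases Nat.eq_zero_or_pos s1 with h | h
    · rw [h, mul_zero] at hv; omega
    · exact h
  have hvQ : v < p ^ k := by
    have : v ≤ v * s1 := Nat.le_mul_of_pos_right _ hs1
    omega
  have hval : ∀ τ : F, ∃ u ∈ U, P.eval τ = u ^ v := by
    intro τ
    have : P.eval τ ∈ (fun s : F => s ^ v) '' (U : Set F) := by
      rw [← hV]; exact ⟨τ, rfl⟩
    obtain ⟨u, hu, huv⟩ := this
    exact ⟨u, hu, huv.symm⟩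
  obtain ⟨c, hc, hcm⟩ := exists_c (U := U) hk hK hm (by omega) n' hn' hn'1
  -- the polynomial `M1`
  set M1 : F[X] := ∑ i ∈ Finset.range m, monomial (NN s1 (p ^ k) i) (c i) with hM1
  have hM1deg : M1.natDegree ≤ NN s1 (p ^ k) (m - 1) := by
    apply natDegree_sum_le_of_forall_le
    intro i hi
    refine (natDegree_monomial_le _).trans ?_
    exact NN_mono hs1 hQ (by have := Finset.mem_range.mp hi; omega)
  have hM1coeff : M1.coeff (NN s1 (p ^ k) (m - 1)) = c (m - 1) := by
    rw [hM1, finsetSum_coeff, Finset.sum_eq_single (m - 1)]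
    · rw [coeff_monomial, if_pos rfl]
    · intro j _ hne
      rw [coeff_monomial, if_neg]
      intro h
      exact hne ((NN_strictMono hs1 hQ).injective h)
    · intro h
      exact absurd (Finset.mem_range.mpr (by omega)) h
  have hM1deg' : M1.natDegree = NN s1 (p ^ k) (m - 1) := by
    apply le_antisymm hM1deg
    apply le_natDegree_of_ne_zero
    rw [hM1coeff]; exact hcm
  have hM10 : M1 ≠ 0 := by
    intro h
    rw [h, coeff_zero] at hM1coeff
    exact hcm hM1coeff.symm
  have hNm : s1 + p ^ k * M1.natDegree = NN s1 (p ^ k) m := by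
    rw [hM1deg', ← NN_succ]
    congr 1; omega
  have hNN1 : NN s1 (p ^ k) 1 = s1 := by rw [NN_succ, NN_zero]; ring
  have hNpos : 1 ≤ NN s1 (p ^ k) (m - 1) := by
    have := NN_mono (s1 := s1) (Q := p ^ k) hs1 hQ (show 1 ≤ m - 1 by omega)
    omega
  have hbig : p ^ k < NN s1 (p ^ k) m := by
    rw [← hNm, hM1deg']
    have : p ^ k ≤ p ^ k * NN s1 (p ^ k) (m - 1) := Nat.le_mul_of_pos_right _ hNpos
    omega
  have heval : ∀ u ∈ U, u ≠ 0 → (u ^ v) ^ s1 * (M1.eval (u ^ v)) ^ (p ^ k) = 1 := by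
    intro u hu hu0
    have h1 : u * M1.eval (u ^ v) = ∑ i ∈ Finset.range m, c i * u ^ ((p ^ k) ^ i) := by
      rw [hM1, eval_finsetSum, Finset.mul_sum]
      apply Finset.sum_congr rfl
      intro i _
      rw [eval_monomial, pow_Q_eq hv i u]
      ring
    have h2 := hc u hu
    rw [← h1, mul_pow] at h2
    have h3 : u ^ (p ^ k) = u * (u ^ v) ^ s1 := by
      rw [← pow_mul, ← pow_succ', hv]
    rw [h3] at h2
    have h4 : u * ((u ^ v) ^ s1 * (M1.eval (u ^ v)) ^ (p ^ k)) = u * 1 := by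
      rw [mul_one]; conv_rhs => rw [h2]
      ring
    exact mul_left_cancel₀ hu0 h4
  have D : Datum p k v s1 M1 P :=
    { hk := hk
      hv := by omega
      hM1 := hM10
      hP := hP
      hr := by rw [hNm]; omega
      hdeg := by rw [hNm]; exact hdeg
      hz := fun τ => by
        obtain ⟨u, hu, huP⟩ := hval τ
        by_cases hu0 : u = 0
        · left; rw [huP, hu0, zero_pow (by omega)]
        · right; rw [huP]; exact heval u hu hu0
      hroot := by
        have : (0 : F) ∈ Set.range (fun a : F => P.eval a) := by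
          rw [hV]; exact ⟨0, U.zero_mem, zero_pow (by omega)⟩
        exact this
      hcase := Or.inl (by rw [hM1deg']; exact hNpos) }
  obtain ⟨A, B, C1, D1, hB, hC, hD, hPD, E, Y, hYdef, hE, hD1, hC1⟩ :=
    D.structure_P (k * n') (by rw [hn', pow_mul]) (Nat.le_mul_of_pos_right _ hn'1)
  have hY : Y ≠ 0 := by rw [hYdef]; exact D.Y_ne_zero
  -- the least `l` with `u ^ (Q ^ l) = u` on `U`
  have hex : ∃ l, 1 ≤ l ∧ ∀ u ∈ U, u ^ ((p ^ k) ^ l) = u :=
    ⟨n', hn'1, fun u _ => by rw [← hn', FiniteField.pow_card]⟩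
  classical
  set n2 := Nat.find hex with hn2
  obtain ⟨hn21, hn2U⟩ := Nat.find_spec hex
  rw [← hn2] at hn21 hn2U
  have hmin : ∀ l, 1 ≤ l → l < n2 → ∃ u ∈ U, u ^ ((p ^ k) ^ l) ≠ u := by
    intro l hl1 hl2
    by_contra hcon
    push Not at hcon
    exact Nat.find_min hex hl2 ⟨hl1, hcon⟩
  have hiter : ∀ a, ∀ u ∈ U, u ^ ((p ^ k) ^ (n2 * a)) = u := by
    intro a
    induction a with
    | zero => intro u _; simp
    | succ a ih =>
      intro u hu
      rw [Nat.mul_succ, pow_add, pow_mul u, ih u hu, hn2U u hu]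
  have hdvd : n2 ∣ n' := by
    rw [Nat.dvd_iff_mod_eq_zero]
    by_contra hne
    obtain ⟨u, hu, hne'⟩ := hmin (n' % n2) (Nat.pos_of_ne_zero hne) (Nat.mod_lt _ hn21)
    apply hne'
    have h1 : u ^ ((p ^ k) ^ n') = u := by rw [← hn', FiniteField.pow_card]
    rw [← Nat.div_add_mod n' n2, pow_add, pow_mul u, hiter _ u hu] at h1
    exact h1
  obtain ⟨d, hd⟩ := hdvd
  obtain ⟨N, rfl⟩ : ∃ N, d = N + 1 := by
    refine ⟨d - 1, ?_⟩
    rcases Nat.eq_zero_or_pos d with h | h
    · rw [h, mul_zero] at hd; omega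
    · omega
  have hb : p ^ (k * n2) = (p ^ k) ^ n2 := pow_mul _ _ _
  have hcard : Fintype.card F = (p ^ (k * n2)) ^ (N + 1) := by
    rw [hn', hd, hb, ← pow_mul (p ^ k)]
  have hdegP : P.natDegree * (p ^ k) ^ (m - 1) < (p ^ k) ^ n' := by
    rw [← hn']
    refine lt_of_le_of_lt ?_ hdeg
    rw [mul_comm]
    apply Nat.mul_le_mul_right
    rw [← hNm, hM1deg', ← v_mul_NN hv (m - 1)]
    have : v * NN s1 (p ^ k) (m - 1) ≤ p ^ k * NN s1 (p ^ k) (m - 1) :=
      Nat.mul_le_mul_right _ hvQ.le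
    omega
  have Ed : EDatum p (p ^ (k * n2)) N k v (NN s1 (p ^ k) m) A B C1 D1 P :=
    { hQb := pow_dvd_pow p (Nat.le_mul_of_pos_right _ hn21)
      hb := Nat.one_lt_pow (by have := Nat.mul_pos hk hn21; omega) hp.out.one_lt
      hk := hk
      hcard := hcard
      hvQ := hvQ
      hv := not_dvd_of_mul v s1 k hk (by omega)
      hr := by omega
      hdeg := by rw [← hcard]; exact hdeg
      hfix := fun τ => by
        obtain ⟨u, hu, huP⟩ := hval τ
        rw [huP, hb, ← pow_mul, mul_comm, pow_mul, hn2U u hu]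
      hB := hB
      hC := hC
      hD := hD
      hP := hPD
      hdig := by
        rw [hb]
        exact hdig_nonfield hk hK hm hm2 h1U hn' hmin hv hv0 hs1 hvQ hn21 P hval hdegP
          A B C1 D1 E Y hD hY hPD hE
      hrep := fun c h1 h2 h3 => rep_two p v (NN s1 (p ^ k) m) (by omega)
        (not_dvd_of_mul v s1 k hk (by omega)) c h1 h2 }
  exact Ed.main

end Cases

end Pool.Agent.MP_7e38b0_nt
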