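import Mathlib

set_option autoImplicit false
set_option linter.unusedSectionVars false
set_option linter.unusedVariables false

namespace Pool.Agent.MP_7e38b0_nt

open Polynomial

section Count

variable {F : Type*} [Field F] [Fintype F]

theorem exists_primitive (K : Subfield F) (v : ℕ) (hv : 1 ≤ v) (hvd : v ∣ Nat.card K - 1) :
    ∃ ζ : K, IsPrimitiveRoot (ζ : F) v := by
  obtain ⟨g, hg⟩ := IsCyclic.exists_ofOrder_eq_natCard (α := Kˣ)
  rw [Nat.card_units] at hg
  have hK : 1 < Nat.card K := Finite.one_lt_card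
  obtain ⟨d, hd⟩ := hvd
  have hd0 : d ≠ 0 := by
    rintro rfl
    rw [mul_zero] at hd; omega
  have h1 : orderOf (g ^ d) = v := by
    rw [orderOf_pow_of_dvd hd0 (by rw [hg, hd]; exact dvd_mul_left _ _), hg, hd,
      Nat.mul_div_cancel _ (Nat.pos_of_ne_zero hd0)]
  have h2 : IsPrimitiveRoot (g ^ d) v := by
    rw [← h1]; exact IsPrimitiveRoot.orderOf _
  refine ⟨((g ^ d : Kˣ) : K), ?_⟩
  have h3 := IsPrimitiveRoot.coe_units_iff.mpr h2
  exact IsPrimitiveRoot.map_of_injective (f := K.subtype) h3 K.subtype.injective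

theorem mem_K_of_pow_eq_one (K : Subfield F) (v : ℕ) (hv : 1 ≤ v) (hvd : v ∣ Nat.card K - 1)
    (z : F) (hz : z ^ v = 1) : z ∈ K := by
  obtain ⟨ζ, hζ⟩ := exists_primitive K v hv hvd
  have : NeZero v := ⟨by omega⟩
  obtain ⟨i, _, hi⟩ := hζ.eq_pow_of_pow_eq_one hz
  rw [← hi]
  exact pow_mem ζ.2 i

theorem ncard_pow_image (K : Subfield F) (v r : ℕ) (hv : 1 ≤ v) (hvd : v ∣ Nat.card K - 1)
    (S : Set F) (h0 : (0 : F) ∈ S) (hS : ∀ c ∈ K, ∀ x ∈ S, c * x ∈ S)
    (hr : v * r + 1 = S.ncard) : ((fun s : F => s ^ v) '' S).ncard = r + 1 := by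
  classical
  obtain ⟨ζ, hζ⟩ := exists_primitive K v hv hvd
  set T : Finset F := S.toFinset.erase 0 with hT
  have hTcard : T.card = v * r := by
    rw [hT, Finset.card_erase_of_mem (by simpa using h0), ← Set.ncard_eq_toFinset_card', ← hr]
    omega
  set T' : Finset F := T.image (fun s => s ^ v) with hT'
  have hfib : ∀ y ∈ T', (T.filter (fun a => a ^ v = y)).card = v := by
    intro y hy
    obtain ⟨x, hx, rfl⟩ := Finset.mem_image.mp hy
    have hx0 : x ≠ 0 := (Finset.mem_erase.mp hx).1
    have hxS : x ∈ S := by simpa using (Finset.mem_erase.mp hx).2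
    have h1 : T.filter (fun a => a ^ v = x ^ v) = (nthRootsFinset v (1 : F)).image (fun z => z * x) := by
      ext a
      rw [Finset.mem_filter, Finset.mem_image]
      constructor
      · rintro ⟨ha, hav⟩
        refine ⟨a / x, ?_, by field_simp⟩
        rw [mem_nthRootsFinset (by omega), div_pow, hav, div_self (pow_ne_zero _ hx0)]
      · rintro ⟨z, hz, rfl⟩
        rw [mem_nthRootsFinset (by omega)] at hz
        have hz0 : z ≠ 0 := by
          rintro rfl
          rw [zero_pow (by omega)] at hz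
          exact zero_ne_one hz
        refine ⟨?_, by rw [mul_pow, hz, one_mul]⟩
        rw [hT, Finset.mem_erase]
        refine ⟨mul_ne_zero hz0 hx0, ?_⟩
        rw [Set.mem_toFinset]
        exact hS z (mem_K_of_pow_eq_one K v hv hvd z hz) x hxS
    rw [h1, Finset.card_image_of_injective _ (mul_left_injective₀ hx0), hζ.card_nthRootsFinset]
  have h2 : T.card = T'.card * v := by
    rw [Finset.card_eq_sum_card_fiberwise (f := fun s => s ^ v) (t := T')
      (fun x hx => Finset.mem_coe.mpr (Finset.mem_image_of_mem _ (Finset.mem_coe.mp hx)))]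
    rw [Finset.sum_congr rfl hfib, Finset.sum_const, smul_eq_mul]
  have h3 : T'.card = r := by
    rw [hTcard] at h2
    exact (Nat.eq_of_mul_eq_mul_left (by omega : 0 < v) (by rw [h2]; ring)).symm
  have h4 : (fun s : F => s ^ v) '' S = ((insert 0 T' : Finset F) : Set F) := by
    ext y
    simp only [Set.mem_image, Finset.coe_insert, Set.mem_insert_iff, Finset.mem_coe]
    constructor
    · rintro ⟨s, hs, rfl⟩
      by_cases hs0 : s = 0
      · left; rw [hs0, zero_pow (by omega)]
      · right
        rw [hT', Finset.mem_image]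
        exact ⟨s, by rw [hT, Finset.mem_erase]; exact ⟨hs0, by simpa using hs⟩, rfl⟩
    · rintro (rfl | hy)
      · exact ⟨0, h0, zero_pow (by omega)⟩
      · obtain ⟨s, hs, rfl⟩ := Finset.mem_image.mp hy
        exact ⟨s, by simpa using (Finset.mem_erase.mp hs).2, rfl⟩
  have h5 : (0 : F) ∉ T' := by
    intro h
    obtain ⟨s, hs, hs0⟩ := Finset.mem_image.mp h
    exact (Finset.mem_erase.mp hs).1 ((pow_eq_zero_iff (by omega)).mp hs0)
  rw [h4, Set.ncard_coe_finset, Finset.card_insert_of_notMem h5, h3]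

theorem card_le_value (f : F[X]) (hf : 0 < f.natDegree) :
    Fintype.card F ≤ f.natDegree * (Set.range (fun a : F => f.eval a)).ncard := by
  classical
  have h := FiniteField.card_image_polynomial_eval (p := f) (natDegree_pos_iff_degree_pos.mp hf)
  have h1 : Set.range (fun a : F => f.eval a) =
      ((Finset.image (fun x => f.eval x) Finset.univ : Finset F) : Set F) := by
    ext y; simp
  rw [h1, Set.ncard_coe_finset]
  exact h

theorem mvsp_iff (f : F[X]) (hf : 0 < f.natDegree) :
    (Set.range (fun a : F => f.eval a)).ncard = (Fintype.card F - 1) / f.natDegree + 1 ↔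
      ((Set.range (fun a : F => f.eval a)).ncard - 1) * f.natDegree < Fintype.card F := by
  have h1 := card_le_value f hf
  have hq : 0 < Fintype.card F := Fintype.card_pos
  set N := (Set.range (fun a : F => f.eval a)).ncard with hN
  have hN1 : 1 ≤ N := by
    rcases Nat.eq_zero_or_pos N with h | h
    · rw [h, mul_zero] at h1; omega
    · exact h
  constructor
  · intro h
    have h2 : N - 1 = (Fintype.card F - 1) / f.natDegree := by omega
    rw [h2]
    have := Nat.div_mul_le_self (Fintype.card F - 1) f.natDegree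
    omega
  · intro h
    have h2 : N - 1 ≤ (Fintype.card F - 1) / f.natDegree := by
      rw [Nat.le_div_iff_mul_le hf]; omega
    have h3 : (Fintype.card F - 1) / f.natDegree < N := by
      rw [Nat.div_lt_iff_lt_mul hf, mul_comm]; omega
    omega

theorem descend (K : Subfield F) (S : Set F) (h0 : (0 : F) ∈ S)
    (hS : ∀ c ∈ K, ∀ x ∈ S, c * x ∈ S) (v r : ℕ) (hv : 1 ≤ v) (hvd : v ∣ Nat.card K - 1)
    (hr : v * r + 1 = S.ncard) (hr1 : 1 ≤ r) (P : F[X]) (hP : 0 < P.natDegree)
    (hV : Set.range (fun a : F => P.eval a) = (fun s : F => s ^ v) '' S)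
    (hdeg : r * P.natDegree < Fintype.card F) (c : F) (f : F[X]) (hc : c ≠ 0)
    (hPf : P = C c * f ^ v) :
    ∃ g : F[X], P = g ^ v ∧ 0 < g.natDegree ∧ Set.range (fun a : F => g.eval a) = S ∧
      (v * r) * g.natDegree < Fintype.card F := by
  classical
  -- a nonzero value
  have hcard := ncard_pow_image K v r hv hvd S h0 hS hr
  obtain ⟨y, hy, hy0⟩ : ∃ y ∈ (fun s : F => s ^ v) '' S, y ≠ 0 := by
    by_contra hcon
    push Not at hcon
    have : (fun s : F => s ^ v) '' S ⊆ {0} := fun y hy => hcon y hy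
    have h1 := Set.ncard_le_ncard this
    rw [hcard, Set.ncard_singleton] at h1
    omega
  obtain ⟨u, hu, huy⟩ := hy
  simp only at huy
  have hyV : y ∈ Set.range (fun a : F => P.eval a) := by
    rw [hV]; exact ⟨u, hu, huy⟩
  obtain ⟨τ, hτ⟩ := hyV
  simp only at hτ
  have hft : f.eval τ ≠ 0 := by
    intro h
    rw [hPf, eval_mul, eval_pow, h, zero_pow (by omega), mul_zero] at hτ
    exact hy0 hτ.symm
  have hc' : (u / f.eval τ) ^ v = c := by
    rw [div_pow, huy, ← hτ, hPf, eval_mul, eval_C, eval_pow]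
    field_simp
  set g : F[X] := C (u / f.eval τ) * f with hg
  have hgP : P = g ^ v := by
    rw [hg, mul_pow, ← C_pow, hc', hPf]
  have hPdeg : P.natDegree = v * g.natDegree := by rw [hgP, natDegree_pow]
  have hgdeg : 0 < g.natDegree := by
    rcases Nat.eq_zero_or_pos g.natDegree with h | h
    · rw [h, mul_zero] at hPdeg; omega
    · exact h
  have hgS : Set.range (fun a : F => g.eval a) ⊆ S := by
    rintro _ ⟨a, rfl⟩
    simp only
    have h1 : P.eval a ∈ (fun s : F => s ^ v) '' S := by
      rw [← hV]; exact ⟨a, rfl⟩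
    obtain ⟨s, hs, hsv⟩ := h1
    simp only at hsv
    rw [hgP, eval_pow] at hsv
    by_cases hs0 : s = 0
    · rw [hs0, zero_pow (by omega)] at hsv
      have : g.eval a = 0 := by
        have := hsv.symm
        exact (pow_eq_zero_iff (by omega)).mp this
      rw [this]; exact h0
    · have h2 : (g.eval a / s) ^ v = 1 := by
        rw [div_pow, hsv, div_self (by rw [← hsv]; exact pow_ne_zero _ hs0)]
      have h3 := hS _ (mem_K_of_pow_eq_one K v hv hvd _ h2) s hs
      rwa [div_mul_cancel₀ _ hs0] at h3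
  have hlow := card_le_value g hgdeg
  have hdeg' : (v * r) * g.natDegree < Fintype.card F := by
    rw [hPdeg] at hdeg
    calc v * r * g.natDegree = r * (v * g.natDegree) := by ring
      _ < _ := hdeg
  refine ⟨g, hgP, hgdeg, ?_, hdeg'⟩
  apply Set.eq_of_subset_of_ncard_le hgS
  rw [← hr]
  have h4 : (v * r) * g.natDegree < g.natDegree * (Set.range (fun a : F => g.eval a)).ncard :=
    lt_of_lt_of_le hdeg' hlow
  rw [mul_comm] at h4
  exact Nat.lt_of_mul_lt_mul_left h4

end Count

end Pool.Agent.MP_7e38b0_nt
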