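import Pool.Agent.MP_7e38b0_nt.Lift
import Pool.Agent.MP_7e38b0_nt.Sections

set_option autoImplicit false
set_option linter.unusedSectionVars false
set_option linter.unusedVariables false

namespace Pool.Agent.MP_7e38b0_nt

section E1

open MvPolynomial

variable {F : Type*} [Field F] {b N : ℕ}

theorem dig_add {Q : ℕ} (hb : 0 < b) (hQb : Q ∣ b) (e a : ℕ) (he : Q ∣ e) (ha : a < Q) :
    dig b (N + 1) (e + a) = dig b (N + 1) e + Finsupp.single 0 a := by
  have h1 : e % b + a < b := by
    obtain ⟨c, hc⟩ := hQb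
    obtain ⟨d, hd⟩ := (Nat.dvd_mod_iff ⟨c, hc⟩).mpr he
    have hlt : e % b < b := Nat.mod_lt _ hb
    rw [hd, hc] at hlt
    have hdc : d < c := Nat.lt_of_mul_lt_mul_left hlt
    rw [hd, hc]
    calc Q * d + a < Q * d + Q := by omega
      _ = Q * (d + 1) := by ring
      _ ≤ Q * c := Nat.mul_le_mul_left _ hdc
  have h2 : (e + a) % b = e % b + a := by
    rw [← Nat.mod_add_mod, Nat.mod_eq_of_lt h1]
  have h3 : (e + a) / b = e / b := by
    have e1 := Nat.div_add_mod e b
    have e2 := Nat.div_add_mod (e + a) b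
    rw [h2] at e2
    have : b * ((e + a) / b) = b * (e / b) := by omega
    exact Nat.eq_of_mul_eq_mul_left hb this
  ext i
  rw [Finsupp.add_apply, dig_apply, dig_apply]
  refine Fin.cases ?_ (fun i => ?_) i
  · simp [h2]
  · rw [Finsupp.single_eq_of_ne (Fin.succ_ne_zero i), add_zero, Fin.val_succ, pow_succ',
      ← Nat.div_div_eq_div_mul, ← Nat.div_div_eq_div_mul, h3]

theorem lift_X_pow_mul_expand {Q : ℕ} (hb : 0 < b) (hQb : Q ∣ b) (a : ℕ) (ha : a < Q)
    (u : Polynomial F) :
    lift b (N + 1) (Polynomial.X ^ a * Polynomial.expand F Q u) =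
      X 0 ^ a * lift b (N + 1) (Polynomial.expand F Q u) := by
  induction u using Polynomial.induction_on' with
  | add f g hf hg => rw [map_add, mul_add, map_add, hf, hg, map_add, mul_add]
  | monomial n c =>
    rw [Polynomial.expand_monomial, Polynomial.X_pow_mul_monomial, lift_monomial, lift_monomial,
      dig_add hb hQb _ _ (Dvd.intro_left n rfl) ha, X_pow_eq_monomial, monomial_mul, one_mul,
      add_comm (Finsupp.single 0 a)]

end E1

section E2

open MvPolynomial

theorem mv_natCast_eq_C {F : Type*} [Field F] {σ : Type*} (n : ℕ) :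
    ((n : ℕ) : MvPolynomial σ F) = C (n : F) := (map_natCast (C : F →+* MvPolynomial σ F) n).symm

variable {F : Type*} [Field F] [Fintype F] (p : ℕ) [hp : Fact p.Prime] [CharP F p]
variable (b N k v r : ℕ) (A B C1 D1 P : Polynomial F)

/-- The hypotheses of the second part. -/
structure EDatum : Prop where
  hQb : p ^ k ∣ b
  hb : 1 < b
  hk : 1 ≤ k
  hcard : Fintype.card F = b ^ (N + 1)
  hvQ : v < p ^ k
  hv : ¬ p ∣ v
  hr : 2 ≤ r
  hdeg : r * P.natDegree < b ^ (N + 1)
  hfix : ∀ τ : F, (P.eval τ) ^ b = P.eval τ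
  hB : B ≠ 0
  hC : C1 ≠ 0
  hD : D1 ≠ 0
  hP : P * D1 ^ p ^ k = (A ^ p ^ k + Polynomial.X * B ^ p ^ k) ^ v * C1 ^ p ^ k
  hdig : ∀ e, P.coeff e ≠ 0 → e % p ^ k = v → e % b = v
  hrep : ∀ c, 2 ≤ c → c ≤ v → ¬ p ∣ v.choose c →
    ∃ l : List ℕ, l.length ≤ r ∧ l.sum = c ∧ ∀ x ∈ l, x < c ∧ ¬ p ∣ v.choose x

/-- the polynomials `h_c` -/
noncomputable def hh (c : ℕ) : MvPolynomial (Fin (N + 1)) F :=
  C (((v.choose (v - c) : ℕ) : F)⁻¹) *
    lift b (N + 1) (Polynomial.expand F (p ^ k) (sec (p ^ k) (v - c) P))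

variable {p b N k v r A B C1 D1 P}

theorem EDatum.hbpos (D : EDatum p b N k v r A B C1 D1 P) : 0 < b := by have := D.hb; omega

theorem EDatum.Qpos (D : EDatum p b N k v r A B C1 D1 P) : 0 < p ^ k := pow_pos hp.out.pos k

theorem EDatum.degP (D : EDatum p b N k v r A B C1 D1 P) : P.natDegree < b ^ (N + 1) :=
  lt_of_le_of_lt (Nat.le_mul_of_pos_left _ (by have := D.hr; omega)) D.hdeg

theorem EDatum.cast_ne (D : EDatum p b N k v r A B C1 D1 P) (n : ℕ) (hn : ¬ p ∣ n) :
    (n : F) ≠ 0 := by
  rwa [Ne, CharP.cast_eq_zero_iff F p]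

/-- degree of sections -/
theorem EDatum.deg_sec (D : EDatum p b N k v r A B C1 D1 P) (a : ℕ) (ha : a < p ^ k) :
    (Polynomial.expand F (p ^ k) (sec (p ^ k) a P)).natDegree < b ^ (N + 1) := by
  refine lt_of_le_of_lt ?_ D.degP
  rw [Polynomial.natDegree_expand]
  by_cases h0 : sec (p ^ k) a P = 0
  · rw [h0]; simp
  · have h1 : (sec (p ^ k) a P).coeff (sec (p ^ k) a P).natDegree ≠ 0 := by
      rw [Polynomial.coeff_natDegree]; exact Polynomial.leadingCoeff_ne_zero.mpr h0
    rw [coeff_sec D.Qpos.ne'] at h1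
    have := Polynomial.le_natDegree_of_ne_zero h1
    omega

theorem EDatum.ev_hh (D : EDatum p b N k v r A B C1 D1 P) (c : ℕ) (hc : c ≤ v)
    (hcc : ¬ p ∣ v.choose c) :
    ev b (N + 1) (hh p b N k v P c) * D1 ^ p ^ k = (B ^ (v - c) * A ^ c * C1) ^ p ^ k := by
  have hlt : v - c < p ^ k := by have := D.hvQ; omega
  have h1 := sec_P p k v D.hvQ A B C1 D1 P D.hP (v - c) hlt
  unfold hh
  rw [map_mul, ev_lift _ (D.deg_sec _ hlt)]
  have h2 : ev b (N + 1) (C (((v.choose (v - c) : ℕ) : F)⁻¹)) =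
      Polynomial.C (((v.choose (v - c) : ℕ) : F)⁻¹) := by
    unfold ev
    rw [← MvPolynomial.algebraMap_eq, AlgHom.commutes]; rfl
  rw [h2, mul_assoc, h1, ← mul_assoc, Nat.sub_sub_self hc]
  have h3 : ((v.choose (v - c) : ℕ) : F) ≠ 0 := by
    rw [Nat.choose_symm hc]; exact D.cast_ne _ hcc
  rw [← Polynomial.C_eq_natCast, ← Polynomial.C_mul, inv_mul_cancel₀ h3, Polynomial.C_1, one_mul]

theorem EDatum.sec_eq_zero (D : EDatum p b N k v r A B C1 D1 P) (a : ℕ) (ha : a < p ^ k)
    (hc : p ∣ v.choose a) : sec (p ^ k) a P = 0 := by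
  have h1 := sec_P p k v D.hvQ A B C1 D1 P D.hP a ha
  have h2 : ((v.choose a : ℕ) : Polynomial F) = 0 := by
    rw [← Polynomial.C_eq_natCast, (CharP.cast_eq_zero_iff F p _).mpr hc, Polynomial.C_0]
  rw [h2, zero_mul] at h1
  have h3 := (mul_eq_zero.mp h1).resolve_right (pow_ne_zero _ D.hD)
  exact (Polynomial.expand_eq_zero D.Qpos).mp h3

/-- decomposition of the lift -/
theorem EDatum.lift_eq_sum (D : EDatum p b N k v r A B C1 D1 P) :
    lift b (N + 1) P = ∑ a ∈ Finset.range (v + 1),
      ((v.choose a : ℕ) : MvPolynomial (Fin (N + 1)) F) * (X 0 ^ a * hh p b N k v P (v - a)) := by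
  conv_lhs => rw [sum_sec D.Qpos P, map_sum]
  have hsub : Finset.range (v + 1) ⊆ Finset.range (p ^ k) := by
    intro a ha
    have := D.hvQ
    rw [Finset.mem_range] at *
    omega
  rw [← Finset.sum_subset hsub]
  · apply Finset.sum_congr rfl
    intro a ha
    have ha' : a ≤ v := by have := Finset.mem_range.mp ha; omega
    have hva : v - (v - a) = a := Nat.sub_sub_self ha'
    have haQ : a < p ^ k := lt_of_le_of_lt ha' D.hvQ
    by_cases hc : p ∣ v.choose a
    · rw [D.sec_eq_zero a haQ hc]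
      have : ((v.choose a : ℕ) : MvPolynomial (Fin (N + 1)) F) = 0 := by
        rw [mv_natCast_eq_C, (CharP.cast_eq_zero_iff F p _).mpr hc, C_0]
      rw [this]; simp
    · unfold hh
      rw [lift_X_pow_mul_expand D.hbpos D.hQb a haQ, hva, mv_natCast_eq_C]
      have h3 : ((v.choose a : ℕ) : F) ≠ 0 := D.cast_ne _ hc
      calc X 0 ^ a * lift b (N + 1) (Polynomial.expand F (p ^ k) (sec (p ^ k) a P))
          = C (((v.choose a : ℕ) : F) * ((v.choose a : ℕ) : F)⁻¹) * (X 0 ^ a *
              lift b (N + 1) (Polynomial.expand F (p ^ k) (sec (p ^ k) a P))) := by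
            rw [mul_inv_cancel₀ h3, C_1, one_mul]
        _ = _ := by rw [C_mul]; ring
  · intro a ha hna
    have haQ := Finset.mem_range.mp ha
    have : p ∣ v.choose a := by
      rw [Finset.mem_range] at hna
      rw [Nat.choose_eq_zero_of_lt (by omega)]; exact dvd_zero p
    rw [D.sec_eq_zero a haQ this]; simp

/-- degree bounds -/
theorem EDatum.degreeOf_hh (D : EDatum p b N k v r A B C1 D1 P) (c : ℕ) (i : Fin (N + 1)) :
    (hh p b N k v P c).degreeOf i ≤ (lift b (N + 1) P).degreeOf i := by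
  unfold hh
  refine (degreeOf_C_mul_le _ _ _).trans ?_
  apply degreeOf_lift_le
  intro e he
  have hlt : v - c < p ^ k := by have := D.hvQ; omega
  rw [Polynomial.coeff_expand D.Qpos] at he
  split_ifs at he with hdvd
  · rw [coeff_sec D.Qpos.ne', Nat.div_mul_cancel hdvd] at he
    have h1 := digit_le_degreeOf P D.degP i _ he
    refine le_trans ?_ h1
    have h2 := congrArg (fun m => m i) (dig_add (N := N) D.hbpos D.hQb e (v - c) hdvd hlt)
    simp only [dig_apply, Finsupp.add_apply] at h2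
    rw [h2]
    exact Nat.le_add_right _ _
  · exact absurd rfl he

/-- `h_0` does not involve `X_0`. -/
theorem EDatum.degreeOf_hh_zero (D : EDatum p b N k v r A B C1 D1 P) :
    (hh p b N k v P 0).degreeOf 0 = 0 := by
  rw [← Nat.le_zero]
  unfold hh
  refine (degreeOf_C_mul_le _ _ _).trans ?_
  apply degreeOf_lift_le
  intro e he
  rw [Nat.sub_zero] at he
  rw [Polynomial.coeff_expand D.Qpos] at he
  split_ifs at he with hdvd
  · rw [coeff_sec D.Qpos.ne', Nat.div_mul_cancel hdvd] at he
    have h1 : (e + v) % p ^ k = v := by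
      rw [Nat.add_mod, Nat.mod_eq_zero_of_dvd hdvd, zero_add, Nat.mod_mod,
        Nat.mod_eq_of_lt D.hvQ]
    have h2 := D.hdig _ he h1
    have h3 := congrArg (fun m => m (0 : Fin (N + 1)))
      (dig_add (N := N) D.hbpos D.hQb e v hdvd D.hvQ)
    simp only [dig_apply, Finsupp.add_apply, Fin.val_zero, pow_zero, Nat.div_one,
      Finsupp.single_eq_same] at h3
    simp only [Fin.val_zero, pow_zero, Nat.div_one]
    omega
  · exact absurd rfl he

theorem EDatum.hh_zero_ne (D : EDatum p b N k v r A B C1 D1 P) : hh p b N k v P 0 ≠ 0 := by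
  intro h
  have h1 := D.ev_hh 0 (Nat.zero_le _) (by
    rw [Nat.choose_zero_right]; exact hp.out.one_lt.ne' ∘ Nat.dvd_one.mp)
  rw [h, map_zero, zero_mul] at h1
  exact (pow_ne_zero _ (mul_ne_zero (mul_ne_zero (pow_ne_zero _ D.hB) (by simp)) D.hC)) h1.symm

theorem prod_hh_ev (D : EDatum p b N k v r A B C1 D1 P) (l : List ℕ)
    (hl : ∀ x ∈ l, x ≤ v ∧ ¬ p ∣ v.choose x) :
    ev b (N + 1) ((l.map (hh p b N k v P)).prod) * D1 ^ (p ^ k * l.length) *
      B ^ (p ^ k * l.sum) = (B ^ (v * l.length) * A ^ l.sum * C1 ^ l.length) ^ p ^ k := by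
  induction l with
  | nil => simp
  | cons x l ih =>
    have hx := hl x (by simp)
    have ih' := ih (fun y hy => hl y (by simp [hy]))
    have h1 := D.ev_hh x hx.1 hx.2
    simp only [List.map_cons, List.prod_cons, List.length_cons, List.sum_cons, map_mul]
    have hB : B ^ (v - x) * B ^ x = B ^ v := by rw [← pow_add, Nat.sub_add_cancel hx.1]
    generalize ev b (N + 1) (hh p b N k v P x) = e1 at h1 ⊢
    generalize ev b (N + 1) (l.map (hh p b N k v P)).prod = e2 at ih' ⊢
    generalize p ^ k = q at h1 ih' ⊢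
    have e3 : D1 ^ (q * (l.length + 1)) = D1 ^ q * D1 ^ (q * l.length) := by
      rw [← pow_add]; congr 1; ring
    have e4 : B ^ (q * (x + l.sum)) = (B ^ x) ^ q * B ^ (q * l.sum) := by
      rw [← pow_mul, ← pow_add]; congr 1; ring
    have e5 : (B ^ (v * (l.length + 1)) * A ^ (x + l.sum) * C1 ^ (l.length + 1)) =
        (B ^ (v - x) * A ^ x * C1) * B ^ x * (B ^ (v * l.length) * A ^ l.sum * C1 ^ l.length) := by
      have : B ^ (v * (l.length + 1)) = B ^ (v - x) * B ^ x * B ^ (v * l.length) := by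
        rw [hB, ← pow_add]; congr 1; ring
      rw [this, pow_add A, pow_succ C1]
      ring
    rw [e5, mul_pow, mul_pow _ (B ^ x), ← h1, ← ih', e3, e4]
    ring

theorem degreeOf_list_prod_le {σ : Type*} (i : σ) (l : List (MvPolynomial σ F)) (d : ℕ)
    (h : ∀ f ∈ l, f.degreeOf i ≤ d) : l.prod.degreeOf i ≤ l.length * d := by
  induction l with
  | nil => simp
  | cons f l ih =>
    rw [List.prod_cons, List.length_cons]
    refine (degreeOf_mul_le i _ _).trans ?_
    have h1 := h f (by simp)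
    have h2 := ih (fun g hg => h g (by simp [hg]))
    calc _ ≤ d + l.length * d := add_le_add h1 h2
      _ = _ := by ring

/-- The key relations in the multivariate world. -/
theorem EDatum.rel (D : EDatum p b N k v r A B C1 D1 P)
    (hdegs : ∀ i, r * (lift b (N + 1) P).degreeOf i < b) (l l' : List ℕ)
    (hlen : l.length = l'.length) (hr : l.length ≤ r) (hsum : l.sum = l'.sum)
    (hl : ∀ x ∈ l, x ≤ v ∧ ¬ p ∣ v.choose x) (hl' : ∀ x ∈ l', x ≤ v ∧ ¬ p ∣ v.choose x) :
    (l.map (hh p b N k v P)).prod = (l'.map (hh p b N k v P)).prod := by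
  have key : ∀ l : List ℕ, l.length ≤ r → ∀ i,
      ((l.map (hh p b N k v P)).prod).degreeOf i < b := by
    intro l hl i
    refine lt_of_le_of_lt (degreeOf_list_prod_le i _ ((lift b (N + 1) P).degreeOf i) ?_) ?_
    · intro f hf
      obtain ⟨x, _, rfl⟩ := List.mem_map.mp hf
      exact D.degreeOf_hh x i
    · rw [List.length_map]
      exact lt_of_le_of_lt (Nat.mul_le_mul_right _ hl) (hdegs i)
  apply ev_injective' (b := b) _ _ (key l hr) (key l' (hlen ▸ hr))
  have h1 := prod_hh_ev D l hl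
  have h2 := prod_hh_ev D l' hl'
  rw [hsum, hlen] at h1
  rw [← h2] at h1
  have h3 : D1 ^ (p ^ k * l'.length) ≠ 0 := pow_ne_zero _ D.hD
  have h4 : B ^ (p ^ k * l'.sum) ≠ 0 := pow_ne_zero _ D.hB
  exact mul_right_cancel₀ h3 (mul_right_cancel₀ h4 h1)

theorem EDatum.h_pow (D : EDatum p b N k v r A B C1 D1 P)
    (hdegs : ∀ i, r * (lift b (N + 1) P).degreeOf i < b) (c : ℕ) :
    c ≤ v → ¬ p ∣ v.choose c →
    (hh p b N k v P 0) ^ c * hh p b N k v P c = hh p b N k v P 0 * (hh p b N k v P 1) ^ c := by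
  induction c using Nat.strong_induction_on with
  | _ c ih =>
    intro hc hcc
    rcases Nat.lt_or_ge c 2 with h2 | h2
    · interval_cases c
      · simp
      · simp
    · obtain ⟨l, hl1, hl2, hl3⟩ := D.hrep c h2 hc hcc
      have hlne : l ≠ [] := by
        rintro rfl; simp at hl2; omega
      have hlen : 1 ≤ l.length := List.length_pos_of_ne_nil hlne
      have hzero : ¬ p ∣ v.choose 0 := by
        rw [Nat.choose_zero_right]; exact hp.out.one_lt.ne' ∘ Nat.dvd_one.mp
      have hrel := D.rel hdegs l (c :: List.replicate (l.length - 1) 0)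
        (by simp; omega) hl1 (by simp [hl2])
        (fun x hx => ⟨by have := (hl3 x hx).1; omega, (hl3 x hx).2⟩)
        (fun x hx => by
          rcases List.mem_cons.mp hx with rfl | hx
          · exact ⟨hc, hcc⟩
          · rw [List.mem_replicate] at hx
            rw [hx.2]; exact ⟨Nat.zero_le _, hzero⟩)
      simp only [List.map_cons, List.prod_cons, List.map_replicate, List.prod_replicate] at hrel
      -- product of the induction hypotheses
      have hprod : ∀ l' : List ℕ, (∀ x ∈ l', x ∈ l) →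
          (hh p b N k v P 0) ^ l'.sum * (l'.map (hh p b N k v P)).prod =
            (hh p b N k v P 0) ^ l'.length * (hh p b N k v P 1) ^ l'.sum := by
        intro l'
        induction l' with
        | nil => intro _; simp
        | cons x l' ih' =>
          intro hmem
          have hx := hl3 x (hmem x (by simp))
          have e1 := ih x hx.1 (by omega) hx.2
          have e2 := ih' (fun y hy => hmem y (by simp [hy]))
          simp only [List.map_cons, List.prod_cons, List.length_cons, List.sum_cons]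
          calc (hh p b N k v P 0) ^ (x + l'.sum) *
                (hh p b N k v P x * (l'.map (hh p b N k v P)).prod)
              = ((hh p b N k v P 0) ^ x * hh p b N k v P x) *
                ((hh p b N k v P 0) ^ l'.sum * (l'.map (hh p b N k v P)).prod) := by ring
            _ = _ := by rw [e1, e2]; ring
      have h5 := hprod l (fun x hx => hx)
      rw [hrel, hl2] at h5
      have h6 : (hh p b N k v P 0) ^ (l.length - 1) ≠ 0 := pow_ne_zero _ D.hh_zero_ne
      apply mul_right_cancel₀ h6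
      have h7 : (hh p b N k v P 0) ^ l.length =
          (hh p b N k v P 0) ^ (l.length - 1) * hh p b N k v P 0 := by
        rw [← pow_succ, Nat.sub_add_cancel hlen]
      rw [h7] at h5
      linear_combination h5

/-- Identity (K). -/
theorem EDatum.keyK (D : EDatum p b N k v r A B C1 D1 P)
    (hdegs : ∀ i, r * (lift b (N + 1) P).degreeOf i < b) :
    (hh p b N k v P 0) ^ v * lift b (N + 1) P =
      hh p b N k v P 0 * (X 0 * hh p b N k v P 0 + hh p b N k v P 1) ^ v := by
  rw [D.lift_eq_sum, Finset.mul_sum, add_pow, Finset.mul_sum]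
  apply Finset.sum_congr rfl
  intro a ha
  have ha' : a ≤ v := by have := Finset.mem_range.mp ha; omega
  by_cases hc : p ∣ v.choose a
  · have : ((v.choose a : ℕ) : MvPolynomial (Fin (N + 1)) F) = 0 := by
      rw [mv_natCast_eq_C, (CharP.cast_eq_zero_iff F p _).mpr hc, C_0]
    rw [this]; simp
  · have h1 := D.h_pow hdegs (v - a) (Nat.sub_le _ _) (by rwa [Nat.choose_symm ha'])
    have h2 : (hh p b N k v P 0) ^ v =
        (hh p b N k v P 0) ^ a * (hh p b N k v P 0) ^ (v - a) := by
      rw [← pow_add, Nat.add_sub_cancel' ha']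
    calc (hh p b N k v P 0) ^ v * (((v.choose a : ℕ) : MvPolynomial (Fin (N + 1)) F) *
          (X 0 ^ a * hh p b N k v P (v - a)))
        = ((v.choose a : ℕ) : MvPolynomial (Fin (N + 1)) F) * (X 0 * hh p b N k v P 0) ^ a *
          ((hh p b N k v P 0) ^ (v - a) * hh p b N k v P (v - a)) := by rw [h2]; ring
      _ = _ := by rw [h1]; ring

end E2

end Pool.Agent.MP_7e38b0_nt
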