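import Mathlib

set_option autoImplicit false
set_option linter.unusedSectionVars false

namespace Pool.Agent.MP_7e38b0_nt

section Digits

variable (b N : ℕ)

/-- base `b` digits -/
noncomputable def dig (e : ℕ) : Fin N →₀ ℕ :=
  Finsupp.equivFunOnFinite.symm (fun i => e / b ^ (i : ℕ) % b)

@[simp] theorem dig_apply (e : ℕ) (i : Fin N) : dig b N e i = e / b ^ (i : ℕ) % b := rfl

/-- value of a digit vector -/
def val (m : Fin N →₀ ℕ) : ℕ := ∑ i : Fin N, m i * b ^ (i : ℕ)

variable {b N}

theorem val_dig {e : ℕ} (he : e < b ^ N) : val b N (dig b N e) = e := by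
  have h := congrArg Fin.val ((finFunctionFinEquiv (m := b) (n := N)).apply_symm_apply ⟨e, he⟩)
  rw [finFunctionFinEquiv_apply] at h
  exact h

theorem val_injOn {m m' : Fin N →₀ ℕ} (hm : ∀ i, m i < b) (hm' : ∀ i, m' i < b)
    (h : val b N m = val b N m') : m = m' := by
  have h1 : (finFunctionFinEquiv (m := b) (n := N)) (fun i => ⟨m i, hm i⟩) =
      finFunctionFinEquiv (fun i => ⟨m' i, hm' i⟩) := by
    apply Fin.ext
    rw [finFunctionFinEquiv_apply, finFunctionFinEquiv_apply]
    exact h
  have h2 := finFunctionFinEquiv.injective h1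
  ext i
  have := congrFun h2 i
  simpa using congrArg Fin.val this

theorem val_lt {m : Fin N →₀ ℕ} (hm : ∀ i, m i < b) : val b N m < b ^ N := by
  have h1 := (finFunctionFinEquiv (m := b) (n := N) (fun i => ⟨m i, hm i⟩)).2
  rw [finFunctionFinEquiv_apply] at h1
  exact h1

theorem dig_val {m : Fin N →₀ ℕ} (hm : ∀ i, m i < b) (hb : 0 < b) : dig b N (val b N m) = m := by
  apply val_injOn (b := b) (fun i => Nat.mod_lt _ hb) hm
  exact val_dig (val_lt hm)

end Digits

section Lift

open MvPolynomial

variable {F : Type*} [Field F] (b N : ℕ)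

/-- the base-`b` digit lift of a polynomial -/
noncomputable def lift : Polynomial F →ₗ[F] MvPolynomial (Fin N) F :=
  Polynomial.lsum (fun e => MvPolynomial.monomial (dig b N e))

/-- the evaluation `X_i ↦ X^(b^i)` -/
noncomputable def ev : MvPolynomial (Fin N) F →ₐ[F] Polynomial F :=
  MvPolynomial.aeval (fun i => Polynomial.X ^ (b ^ (i : ℕ)))

variable {b N}

theorem lift_apply (f : Polynomial F) :
    lift b N f = f.sum (fun e c => MvPolynomial.monomial (dig b N e) c) := rfl

theorem lift_monomial (e : ℕ) (c : F) :
    lift b N (Polynomial.monomial e c) = MvPolynomial.monomial (dig b N e) c := by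
  rw [lift_apply, Polynomial.sum_monomial_index]
  simp

theorem ev_monomial (m : Fin N →₀ ℕ) (c : F) :
    ev b N (MvPolynomial.monomial m c) = Polynomial.monomial (val b N m) c := by
  unfold ev
  rw [aeval_monomial, ← Polynomial.C_mul_X_pow_eq_monomial]
  congr 1
  rw [Finsupp.prod_fintype _ _ (fun i => pow_zero _)]
  simp_rw [← pow_mul]
  rw [Finset.prod_pow_eq_pow_sum]
  congr 1
  unfold val
  exact Finset.sum_congr rfl (fun i _ => mul_comm _ _)

theorem ev_lift (f : Polynomial F) (hf : f.natDegree < b ^ N) : ev b N (lift b N f) = f := by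
  rw [lift_apply, Polynomial.sum_def, map_sum]
  conv_rhs => rw [f.as_sum_support]
  apply Finset.sum_congr rfl
  intro e he
  rw [ev_monomial, val_dig]
  exact (Polynomial.le_natDegree_of_mem_supp e he).trans_lt hf

/-- evaluation is injective on polynomials with small degrees -/
theorem ev_injective (G : MvPolynomial (Fin N) F) (hG : ∀ i, G.degreeOf i < b)
    (h : ev b N G = 0) : G = 0 := by
  classical
  ext m
  by_cases hm : m ∈ G.support
  · have h1 : (ev b N G).coeff (val b N m) = G.coeff m := by
      conv_lhs => rw [G.as_sum, map_sum, Polynomial.finsetSum_coeff]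
      rw [Finset.sum_eq_single m]
      · rw [ev_monomial, Polynomial.coeff_monomial, if_pos rfl]
      · intro m' hm' hne
        rw [ev_monomial, Polynomial.coeff_monomial, if_neg]
        intro heq
        apply hne
        exact val_injOn (b := b) (fun i => (monomial_le_degreeOf i hm').trans_lt (hG i))
          (fun i => (monomial_le_degreeOf i hm).trans_lt (hG i)) heq
      · intro hn; exact absurd hm hn
    rw [← h1, h]; simp
  · rw [notMem_support_iff.mp hm]; simp

theorem ev_injective' (G H : MvPolynomial (Fin N) F) (hG : ∀ i, G.degreeOf i < b)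
    (hH : ∀ i, H.degreeOf i < b) (h : ev b N G = ev b N H) : G = H := by
  rw [← sub_eq_zero]
  apply ev_injective (b := b)
  · intro i
    exact (degreeOf_sub_le _ _ _).trans_lt (max_lt (hG i) (hH i))
  · rw [map_sub, h, sub_self]

theorem natDegree_ev_lt (hb : 0 < b) (G : MvPolynomial (Fin N) F) (hG : ∀ i, G.degreeOf i < b) :
    (ev b N G).natDegree < b ^ N := by
  rw [G.as_sum, map_sum]
  have hpos : 0 < b ^ N := pow_pos hb N
  rw [Nat.lt_iff_le_pred hpos]
  apply Polynomial.natDegree_sum_le_of_forall_le
  intro m hm
  rw [ev_monomial]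
  refine (Polynomial.natDegree_monomial_le _).trans ?_
  rw [← Nat.lt_iff_le_pred hpos]
  exact val_lt (fun i => (monomial_le_degreeOf i hm).trans_lt (hG i))

theorem coeff_lift (f : Polynomial F) (hf : f.natDegree < b ^ N) (e : ℕ) (he : e < b ^ N) :
    (lift b N f).coeff (dig b N e) = f.coeff e := by
  classical
  rw [lift_apply, Polynomial.sum_def, coeff_sum]
  by_cases hes : e ∈ f.support
  · rw [Finset.sum_eq_single e]
    · rw [coeff_monomial, if_pos rfl]
    · intro e' he' hne
      rw [coeff_monomial, if_neg]
      intro heq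
      apply hne
      have := congrArg (val b N) heq
      rwa [val_dig ((Polynomial.le_natDegree_of_mem_supp e' he').trans_lt hf), val_dig he] at this
    · intro h; exact absurd hes h
  · rw [Polynomial.notMem_support_iff.mp hes]
    apply Finset.sum_eq_zero
    intro e' he'
    rw [coeff_monomial, if_neg]
    intro heq
    have := congrArg (val b N) heq
    rw [val_dig ((Polynomial.le_natDegree_of_mem_supp e' he').trans_lt hf), val_dig he] at this
    subst this
    exact hes he'

/-- bound on the degrees of a lift -/
theorem degreeOf_lift_le (f : Polynomial F) (i : Fin N) (d : ℕ)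
    (h : ∀ e, f.coeff e ≠ 0 → e / b ^ (i : ℕ) % b ≤ d) : (lift b N f).degreeOf i ≤ d := by
  rw [lift_apply, Polynomial.sum_def]
  refine (degreeOf_sum_le i _ _).trans ?_
  apply Finset.sup_le
  intro e he
  have hc : f.coeff e ≠ 0 := Polynomial.mem_support_iff.mp he
  rw [degreeOf_monomial_eq _ _ hc]
  exact h e hc

theorem digit_le_degreeOf (f : Polynomial F) (hf : f.natDegree < b ^ N) (i : Fin N) (e : ℕ)
    (he : f.coeff e ≠ 0) : e / b ^ (i : ℕ) % b ≤ (lift b N f).degreeOf i := by
  have he' : e < b ^ N := (Polynomial.le_natDegree_of_ne_zero he).trans_lt hf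
  have : dig b N e ∈ (lift b N f).support := by
    rw [mem_support_iff, coeff_lift f hf e he']; exact he
  exact monomial_le_degreeOf i this

end Lift

end Pool.Agent.MP_7e38b0_nt
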