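import Pool.Agent.MP_7e38b0_nt.PartOne

set_option autoImplicit false
set_option linter.unusedSectionVars false
set_option linter.unusedVariables false

namespace Pool.Agent.MP_7e38b0_nt

open Polynomial

section D

variable {F : Type*} [Field F] [Fintype F] (p : ℕ) [hp : Fact p.Prime] [CharP F p]

theorem exists_pow_of_derivative_eq_zero (g : F[X]) (hg : derivative g = 0) :
    ∃ h : F[X], g = h ^ p := by
  have h1 := expand_contract p hg hp.out.ne_zero
  exact ⟨(contract p g).map (frobeniusEquiv F p).symm, by rw [← polynomial_expand_eq, h1]⟩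

theorem derivative_pow_char (g : F[X]) (j : ℕ) (hj : 1 ≤ j) : derivative (g ^ p ^ j) = 0 := by
  rw [derivative_pow]
  have : ((p ^ j : ℕ) : F) = 0 := by
    rw [CharP.cast_eq_zero_iff F p]
    exact dvd_pow_self p (by omega)
  rw [this]; simp

theorem exists_pow_char_root (j : ℕ) (c : F) : ∃ d : F, d ^ p ^ j = c := by
  have := (iterateFrobeniusEquiv F p j).surjective c
  obtain ⟨d, hd⟩ := this
  exact ⟨d, by simpa [iterateFrobenius_def] using hd⟩

omit [Fintype F] in
theorem rootMultiplicity_pow' (f : F[X]) (hf : f ≠ 0) (a : F) (n : ℕ) :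
    rootMultiplicity a (f ^ n) = n * rootMultiplicity a f := by
  induction n with
  | zero => rw [pow_zero, zero_mul, ← C_1, rootMultiplicity_C]
  | succ n ih =>
    rw [pow_succ, rootMultiplicity_mul (mul_ne_zero (pow_ne_zero _ hf) hf), ih]; ring

omit [Fintype F] in
/-- degree bookkeeping for `A^N + X B^N` -/
theorem degree_AB (A B : F[X]) (N : ℕ) (hN : 2 ≤ N) :
    N * A.natDegree ≤ (A ^ N + X * B ^ N).natDegree ∧
      N * B.natDegree ≤ (A ^ N + X * B ^ N).natDegree := by
  by_cases hA : A = 0
  · subst hA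
    rw [zero_pow (by omega), zero_add, natDegree_zero]
    refine ⟨by omega, ?_⟩
    by_cases hB : B = 0
    · subst hB; simp
    · rw [natDegree_X_mul (pow_ne_zero _ hB), natDegree_pow]; omega
  by_cases hB : B = 0
  · subst hB
    rw [zero_pow (by omega), mul_zero, add_zero, natDegree_pow, natDegree_zero]
    omega
  have h1 : (A ^ N).natDegree = N * A.natDegree := natDegree_pow _ _
  have h2 : (X * B ^ N).natDegree = N * B.natDegree + 1 := by
    rw [natDegree_X_mul (pow_ne_zero _ hB), natDegree_pow]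
  rcases lt_or_ge A.natDegree (B.natDegree + 1) with h | h
  · -- the second term dominates
    have h3 : (A ^ N).natDegree < (X * B ^ N).natDegree := by
      rw [h1, h2]
      have : N * A.natDegree ≤ N * B.natDegree := Nat.mul_le_mul_left _ (by omega)
      omega
    rw [natDegree_add_eq_right_of_natDegree_lt h3, h2]
    have : N * A.natDegree ≤ N * B.natDegree := Nat.mul_le_mul_left _ (by omega)
    omega
  · have h3 : (X * B ^ N).natDegree < (A ^ N).natDegree := by
      rw [h1, h2]
      have : N * (B.natDegree + 1) ≤ N * A.natDegree := Nat.mul_le_mul_left _ h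
      rw [Nat.mul_add, Nat.mul_one] at this
      omega
    rw [natDegree_add_eq_left_of_natDegree_lt h3, h1]
    have : N * (B.natDegree + 1) ≤ N * A.natDegree := Nat.mul_le_mul_left _ h
    rw [Nat.mul_add, Nat.mul_one] at this
    omega

omit [Fintype F] in
theorem isCoprime_AB (A B L : F[X]) (N : ℕ) (hN : 2 ≤ N) (hL : L = A ^ N + X * B ^ N)
    (hsq : Squarefree L) : IsCoprime A B := by
  have hne : ¬ (A = 0 ∧ B = 0) := by
    rintro ⟨rfl, rfl⟩
    rw [zero_pow (by omega)] at hL
    simp only [mul_zero, add_zero] at hL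
    exact hsq.ne_zero hL
  apply isCoprime_of_irreducible_dvd hne
  intro z hz hzA hzB
  have h1 : z ^ N ∣ L := by
    rw [hL]
    exact dvd_add (pow_dvd_pow_of_dvd hzA N) ((pow_dvd_pow_of_dvd hzB N).mul_left X)
  have h2 : z * z ∣ L := by
    rw [← pow_two]; exact (pow_dvd_pow z hN).trans h1
  exact hz.not_isUnit (hsq z h2)

/-- If the Wronskian of coprime `A`, `B` vanishes, both are `p`-th powers. -/
theorem wronskian_zero (A B : F[X]) (hcop : IsCoprime A B)
    (hW : B * derivative A - A * derivative B = 0) :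
    (∃ A' : F[X], A = A' ^ p) ∧ (∃ B' : F[X], B = B' ^ p) := by
  have h : B * derivative A = A * derivative B := sub_eq_zero.mp hW
  have hA : A ∣ derivative A := by
    have : A ∣ B * derivative A := by rw [h]; exact dvd_mul_right _ _
    exact hcop.dvd_of_dvd_mul_left this
  have hB : B ∣ derivative B := by
    have : B ∣ A * derivative B := by rw [← h]; exact dvd_mul_right _ _
    exact hcop.symm.dvd_of_dvd_mul_left this
  rw [dvd_derivative_iff] at hA hB
  exact ⟨exists_pow_of_derivative_eq_zero p A hA, exists_pow_of_derivative_eq_zero p B hB⟩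

/-- The data of the problem, in the form used by the first part of the proof. `Q = p ^ k`,
`r = s1 + Q * deg M1`, and the nonzero values `y` of `P` satisfy `y ^ s1 * M1(y) ^ Q = 1`. -/
structure Datum (k v s1 : ℕ) (M1 P : F[X]) : Prop where
  hk : 1 ≤ k
  hv : v * s1 = p ^ k - 1
  hM1 : M1 ≠ 0
  hP : 0 < P.natDegree
  hr : 2 ≤ s1 + p ^ k * M1.natDegree
  hdeg : (s1 + p ^ k * M1.natDegree) * P.natDegree < Fintype.card F
  hz : ∀ τ : F, P.eval τ = 0 ∨ (P.eval τ) ^ s1 * (M1.eval (P.eval τ)) ^ (p ^ k) = 1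
  hroot : ∃ τ : F, P.eval τ = 0
  hcase : 1 ≤ M1.natDegree ∨ (M1.natDegree = 0 ∧ ∀ j, 1 ≤ j → j < k → ¬ s1 ∣ p ^ j - 1)

variable {p}
variable {k v s1 : ℕ} {M1 P : F[X]}

theorem Datum.one_lt_pow (D : Datum p k v s1 M1 P) : 1 < p ^ k :=
  Nat.one_lt_pow (by have := D.hk; omega) hp.out.one_lt

theorem Datum.s1_pos (D : Datum p k v s1 M1 P) : 0 < s1 := by
  rcases Nat.eq_zero_or_pos s1 with h | h
  · have h1 := D.hv
    have h2 := D.one_lt_pow
    rw [h] at h1; omega
  · exact h

theorem Datum.v_pos (D : Datum p k v s1 M1 P) : 0 < v := by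
  rcases Nat.eq_zero_or_pos v with h | h
  · have h1 := D.hv
    have h2 := D.one_lt_pow
    rw [h] at h1; omega
  · exact h

theorem Datum.v_mul_s1_cast (D : Datum p k v s1 M1 P) : (v : F) * s1 = -1 := by
  have h2 := D.one_lt_pow
  have h : ((v * s1 + 1 : ℕ) : F) = 0 := by
    rw [D.hv, Nat.sub_add_cancel h2.le, CharP.cast_eq_zero_iff F p]
    exact dvd_pow_self p (by have := D.hk; omega)
  push_cast at h
  linear_combination h

/-- the polynomial `M` -/
noncomputable def MM (p k s1 : ℕ) (M1 : F[X]) : F[X] := 1 - X ^ s1 * M1 ^ (p ^ k)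

theorem Datum.MM_coeff_zero (D : Datum p k v s1 M1 P) : (MM p k s1 M1).coeff 0 = 1 := by
  unfold MM
  rw [coeff_zero_eq_eval_zero]
  simp [D.s1_pos.ne']

theorem Datum.MM_derivative (D : Datum p k v s1 M1 P) :
    (v : F[X]) * (X * derivative (MM p k s1 M1)) =
      - (MM p k s1 M1 - C ((MM p k s1 M1).coeff 0)) := by
  rw [D.MM_coeff_zero]
  have h1 : derivative (M1 ^ (p ^ k)) = 0 := derivative_pow_char p M1 k D.hk
  have h2 : ((v : F[X])) * (s1 : F[X]) = -1 := by
    have := D.v_mul_s1_cast
    have h3 := congrArg (C : F → F[X]) this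
    simpa using h3
  have h3 : (X : F[X]) * X ^ (s1 - 1) = (X ^ s1 : F[X]) := by
    rw [← pow_succ', Nat.sub_add_cancel D.s1_pos]
  unfold MM
  rw [derivative_sub, derivative_one, derivative_mul, h1, derivative_X_pow]
  simp only [map_natCast, map_one]
  calc (v : F[X]) * (X * (0 - ((s1 : F[X]) * X ^ (s1 - 1) * M1 ^ p ^ k + X ^ s1 * 0)))
      = - ((v : F[X]) * (s1 : F[X])) * (X * X ^ (s1 - 1)) * M1 ^ p ^ k := by ring
    _ = _ := by rw [h2, h3]; ring

theorem Datum.MM_comp (D : Datum p k v s1 M1 P) :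
    (MM p k s1 M1).comp P = 1 - P ^ s1 * (M1.comp P) ^ (p ^ k) := by
  unfold MM; simp

theorem Datum.MM_comp_natDegree (D : Datum p k v s1 M1 P) :
    ((MM p k s1 M1).comp P).natDegree < Fintype.card F := by
  refine lt_of_le_of_lt ?_ D.hdeg
  rw [D.MM_comp]
  refine (natDegree_sub_le _ _).trans ?_
  rw [natDegree_one]
  apply max_le (Nat.zero_le _)
  refine natDegree_mul_le.trans ?_
  rw [natDegree_pow, natDegree_pow, natDegree_comp]
  apply le_of_eq; ring

theorem Datum.P_ne_zero (D : Datum p k v s1 M1 P) : P ≠ 0 := by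
  rintro rfl; simpa using D.hP

theorem Datum.two_deg (D : Datum p k v s1 M1 P) : 2 * P.natDegree < Fintype.card F :=
  lt_of_le_of_lt (Nat.mul_le_mul_right _ D.hr) D.hdeg

theorem Datum.hz' (D : Datum p k v s1 M1 P) (τ : F) :
    P.eval τ = 0 ∨ (MM p k s1 M1).eval (P.eval τ) = 0 := by
  rcases D.hz τ with h | h
  · exact Or.inl h
  · right; unfold MM; simp [h]

theorem Datum.derivative_derivative_LL (D : Datum p k v s1 M1 P) :
    derivative (derivative (LL P)) = 0 :=
  keyC (MM p k s1 M1) P v (by rw [D.MM_coeff_zero]; exact one_ne_zero) D.P_ne_zero D.MM_derivative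
    D.MM_comp_natDegree D.two_deg D.hz'

/-- (S2) -/
theorem Datum.S2 (D : Datum p k v s1 M1 P) :
    LL P + (X ^ Fintype.card F - X) * derivative (LL P) =
      LL P * P ^ s1 * (M1.comp P) ^ (p ^ k) := by
  have h := keyA (MM p k s1 M1) P D.MM_comp_natDegree D.hz'
  rw [D.MM_coeff_zero, D.MM_comp] at h
  simp only [map_one, one_mul] at h
  linear_combination h

theorem Datum.LL_natDegree_pos (D : Datum p k v s1 M1 P) : 0 < (LL P).natDegree := by
  rw [natDegree_LL]
  obtain ⟨τ, hτ⟩ := D.hroot
  exact Finset.card_pos.mpr ⟨τ, mem_Z.mpr hτ⟩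

theorem Datum.Y_ne_zero (D : Datum p k v s1 M1 P) : M1.comp P ≠ 0 := by
  rw [Ne, comp_eq_zero_iff, not_or]
  refine ⟨D.hM1, ?_⟩
  rintro ⟨_, h2⟩
  have := D.hP
  rw [h2, natDegree_C] at this
  exact lt_irrefl _ this

/-- the induction step of the structure theorem for `L` -/
theorem Datum.step (D : Datum p k v s1 M1 P) (n : ℕ) (hn : Fintype.card F = p ^ n) (hkn : k ≤ n)
    (j : ℕ) (hj1 : 1 ≤ j) (hjk : j < k) (A B : F[X]) (hL : LL P = A ^ p ^ j + X * B ^ p ^ j) :
    B * derivative A - A * derivative B = 0 := by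
  have hpj : 2 ≤ p ^ j := by
    calc 2 ≤ p := hp.out.two_le
      _ = p ^ 1 := (pow_one p).symm
      _ ≤ p ^ j := Nat.pow_le_pow_right hp.out.pos hj1
  set E : F[X] := A + X ^ (p ^ (n - j)) * B with hE
  have hL' : derivative (LL P) = B ^ p ^ j := by
    rw [hL, derivative_add, derivative_mul, derivative_pow_char p A j hj1,
      derivative_pow_char p B j hj1]
    simp
  have hEp : E ^ p ^ j = LL P * P ^ s1 * (M1.comp P) ^ (p ^ k) := by
    rw [← D.S2, hL', hn, hE, add_pow_expChar_pow, mul_pow, ← pow_mul, ← pow_add,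
      Nat.sub_add_cancel (by omega : j ≤ n)]
    conv_rhs => rw [hL]
    ring
  have hE' : derivative E = derivative A + X ^ (p ^ (n - j)) * derivative B := by
    rw [hE, derivative_add, derivative_mul, derivative_pow_char p X (n - j) (by omega)]
    ring
  have hW : B * derivative A - A * derivative B = B * derivative E - derivative B * E := by
    rw [hE', hE]; ring
  by_contra hne
  have hdegW : (B * derivative A - A * derivative B).natDegree ≤ A.natDegree + B.natDegree - 1 := by
    refine (natDegree_sub_le _ _).trans (max_le ?_ ?_)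
    · by_cases hA0 : A.natDegree = 0
      · have : derivative A = 0 := by
          rw [eq_C_of_natDegree_eq_zero hA0, derivative_C]
        rw [this]; simp
      · refine natDegree_mul_le.trans ?_
        have := natDegree_derivative_le A
        omega
    · by_cases hB0 : B.natDegree = 0
      · have : derivative B = 0 := by
          rw [eq_C_of_natDegree_eq_zero hB0, derivative_C]
        rw [this]; simp
      · refine natDegree_mul_le.trans ?_
        have := natDegree_derivative_le B
        omega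
  obtain ⟨hdA, hdB⟩ := degree_AB A B (p ^ j) hpj
  rw [← hL] at hdA hdB
  have hAB : A.natDegree + B.natDegree ≤ (LL P).natDegree := by
    have h1 : 2 * A.natDegree ≤ (LL P).natDegree := (Nat.mul_le_mul_right _ hpj).trans hdA
    have h2 : 2 * B.natDegree ≤ (LL P).natDegree := (Nat.mul_le_mul_right _ hpj).trans hdB
    omega
  have hLpos := D.LL_natDegree_pos
  have hLle := natDegree_LL_le P D.P_ne_zero
  rcases D.hcase with hM | ⟨hM, hs⟩
  · -- `Y ^ (p ^ (k - j))` divides the Wronskian
    have h1 : (M1.comp P) ^ (p ^ (k - j)) ∣ E := by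
      rw [← UniqueFactorizationMonoid.pow_dvd_pow_iff_dvd (n := p ^ j) (by positivity), hEp,
        ← pow_mul, ← pow_add, Nat.sub_add_cancel hjk.le]
      exact dvd_mul_left _ _
    obtain ⟨E1, hE1⟩ := h1
    have h2 : derivative E = (M1.comp P) ^ (p ^ (k - j)) * derivative E1 := by
      rw [hE1, derivative_mul, derivative_pow_char p _ (k - j) (by omega)]
      ring
    have h3 : (M1.comp P) ^ (p ^ (k - j)) ∣ B * derivative A - A * derivative B := by
      rw [hW, h2, hE1]
      exact ⟨B * derivative E1 - derivative B * E1, by ring⟩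
    have h4 := natDegree_le_of_dvd h3 hne
    rw [natDegree_pow, natDegree_comp] at h4
    have h5 : P.natDegree ≤ p ^ (k - j) * (M1.natDegree * P.natDegree) := by
      have : 1 ≤ p ^ (k - j) * M1.natDegree := Nat.mul_pos (pow_pos hp.out.pos _) hM
      calc P.natDegree = 1 * P.natDegree := (one_mul _).symm
        _ ≤ (p ^ (k - j) * M1.natDegree) * P.natDegree := Nat.mul_le_mul_right _ this
        _ = _ := by ring
    omega
  · -- `L ^ 2` divides `E`
    have hY : ∃ c : F, c ≠ 0 ∧ (M1.comp P) = C c := by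
      have h0 := eq_C_of_natDegree_eq_zero hM
      refine ⟨M1.coeff 0, ?_, ?_⟩
      · intro hc; rw [hc, map_zero] at h0; exact D.hM1 h0
      · rw [h0]; simp
    obtain ⟨c, hc0, hc⟩ := hY
    have hEp' : E ^ p ^ j = C (c ^ p ^ k) * (LL P * P ^ s1) := by
      rw [hEp, hc, C_pow]; ring
    have hL2 : (LL P) ^ 2 ∣ E := by
      rw [LL, ← Finset.prod_pow]
      apply Finset.prod_dvd_of_coprime
      · intro a _ b _ hab
        exact (pairwise_coprime_X_sub_C (fun x y h => h) hab).pow
      · intro τ hτ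
        have hE0 : E ≠ 0 := by
          intro h0
          rw [h0, zero_pow (by positivity)] at hEp'
          have := mul_ne_zero (C_ne_zero.mpr (pow_ne_zero (p ^ k) hc0))
            (mul_ne_zero (monic_LL P).ne_zero (pow_ne_zero s1 D.P_ne_zero))
          exact this hEp'.symm
        rw [← le_rootMultiplicity_iff hE0]
        have h1 : rootMultiplicity τ (E ^ p ^ j) = p ^ j * rootMultiplicity τ E := by
          rw [rootMultiplicity_pow' _ hE0]
        have h2 : rootMultiplicity τ (LL P) = 1 := by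
          apply le_antisymm
          · apply rootMultiplicity_le_one_of_separable
            rw [PerfectField.separable_iff_squarefree]
            exact squarefree_LL P
          · rw [Nat.succ_le_iff, rootMultiplicity_pos (monic_LL P).ne_zero]
            exact (eval_LL_eq_zero_iff P τ).mpr (mem_Z.mp hτ)
        have h3 : rootMultiplicity τ (E ^ p ^ j) = 1 + s1 * rootMultiplicity τ P := by
          rw [hEp', rootMultiplicity_mul (by rw [← hEp']; exact pow_ne_zero _ hE0),
            rootMultiplicity_mul (mul_ne_zero (monic_LL P).ne_zero (pow_ne_zero _ D.P_ne_zero)),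
            rootMultiplicity_C, h2, rootMultiplicity_pow' _ D.P_ne_zero]
          ring
        rw [h1] at h3
        by_contra hlt
        push Not at hlt
        interval_cases h4 : rootMultiplicity τ E
        · omega
        · apply hs j hj1 hjk
          refine ⟨rootMultiplicity τ P, ?_⟩
          omega
    have hLE : LL P ∣ E := (dvd_pow_self _ (by norm_num)).trans hL2
    have hLE' : LL P ∣ derivative E := by
      obtain ⟨E1, hE1⟩ := hL2
      rw [hE1, derivative_mul, derivative_pow]
      exact dvd_add (((((dvd_pow_self _ (by norm_num)).mul_left _).mul_right _)).mul_right _)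
        ((dvd_pow_self _ (by norm_num)).mul_right _)
    have h3 : LL P ∣ B * derivative A - A * derivative B := by
      rw [hW]
      exact dvd_sub (hLE'.mul_left _) (hLE.mul_left _)
    have h4 := natDegree_le_of_dvd h3 hne
    omega

/-- Structure theorem for `L`. -/
theorem Datum.structure_L (D : Datum p k v s1 M1 P) (n : ℕ) (hn : Fintype.card F = p ^ n)
    (hkn : k ≤ n) (j : ℕ) (hj1 : 1 ≤ j) (hjk : j ≤ k) :
    ∃ A B : F[X], LL P = A ^ p ^ j + X * B ^ p ^ j := by
  induction j, hj1 using Nat.le_induction with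
  | base =>
    have h := D.derivative_derivative_LL
    obtain ⟨B, hB⟩ := exists_pow_of_derivative_eq_zero p (derivative (LL P)) h
    obtain ⟨A, hA⟩ := exists_pow_of_derivative_eq_zero p (LL P - X * derivative (LL P)) (by
      rw [derivative_sub, derivative_mul, h, derivative_X]; ring)
    refine ⟨A, B, ?_⟩
    rw [pow_one, ← hA, ← hB]; ring
  | succ j hj1 ih =>
    obtain ⟨A, B, hL⟩ := ih (by omega)
    have hpj : 2 ≤ p ^ j := by
      calc 2 ≤ p := hp.out.two_le
        _ = p ^ 1 := (pow_one p).symm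
        _ ≤ p ^ j := Nat.pow_le_pow_right hp.out.pos hj1
    have hW := D.step n hn hkn j hj1 (by omega) A B hL
    have hcop := isCoprime_AB A B (LL P) (p ^ j) hpj hL (squarefree_LL P)
    obtain ⟨⟨A', hA'⟩, ⟨B', hB'⟩⟩ := wronskian_zero p A B hcop hW
    refine ⟨A', B', ?_⟩
    rw [hL, hA', hB', ← pow_mul, ← pow_mul, ← pow_succ']

/-- Final output of Part I. -/
theorem Datum.structure_P (D : Datum p k v s1 M1 P) (n : ℕ) (hn : Fintype.card F = p ^ n)
    (hkn : k ≤ n) :
    ∃ A B C1 D1 : F[X], B ≠ 0 ∧ C1 ≠ 0 ∧ D1 ≠ 0 ∧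
      P * D1 ^ p ^ k = (A ^ p ^ k + X * B ^ p ^ k) ^ v * C1 ^ p ^ k ∧
      ∃ E Y : F[X], Y = M1.comp P ∧
      E ^ p ^ k = (A ^ p ^ k + X * B ^ p ^ k) * P ^ s1 * Y ^ (p ^ k) ∧ D1 = E ^ v ∧
        C1 = P * Y ^ v := by
  obtain ⟨A, B, hL⟩ := D.structure_L n hn hkn k D.hk le_rfl
  set E : F[X] := A + X ^ (p ^ (n - k)) * B with hE
  have hL' : derivative (LL P) = B ^ p ^ k := by
    rw [hL, derivative_add, derivative_mul, derivative_pow_char p A k D.hk,
      derivative_pow_char p B k D.hk]
    simp
  have hEp : E ^ p ^ k = LL P * P ^ s1 * (M1.comp P) ^ (p ^ k) := by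
    rw [← D.S2, hL', hn, hE, add_pow_expChar_pow, mul_pow, ← pow_mul, ← pow_add,
      Nat.sub_add_cancel (by omega : k ≤ n)]
    conv_rhs => rw [hL]
    ring
  have hE0 : E ≠ 0 := by
    intro h0
    rw [h0, zero_pow (by have := D.one_lt_pow; omega)] at hEp
    exact (mul_ne_zero (mul_ne_zero (monic_LL P).ne_zero (pow_ne_zero s1 D.P_ne_zero))
      (pow_ne_zero _ D.Y_ne_zero)) hEp.symm
  refine ⟨A, B, P * (M1.comp P) ^ v, E ^ v, ?_, ?_, ?_, ?_, E, M1.comp P, rfl, ?_, rfl, rfl⟩
  · rintro rfl
    have h1 := D.one_lt_pow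
    rw [zero_pow (by omega), mul_zero, add_zero] at hL
    have h2 : A * A ∣ LL P := by
      rw [hL, ← pow_two]; exact pow_dvd_pow A (by omega)
    have h3 := squarefree_LL P A h2
    have h4 : IsUnit (LL P) := by rw [hL]; exact h3.pow _
    have h5 := D.LL_natDegree_pos
    rw [natDegree_eq_zero_of_isUnit h4] at h5
    exact lt_irrefl _ h5
  · exact mul_ne_zero D.P_ne_zero (pow_ne_zero _ D.Y_ne_zero)
  · exact pow_ne_zero _ hE0
  · rw [← hL]
    have h1 : (E ^ v) ^ p ^ k = (E ^ p ^ k) ^ v := by rw [← pow_mul, ← pow_mul, mul_comm]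
    have h2 : P * P ^ (s1 * v) = P ^ p ^ k := by
      rw [← pow_succ', mul_comm s1 v, D.hv, Nat.sub_add_cancel D.one_lt_pow.le]
    rw [h1, hEp, mul_pow, mul_pow, mul_pow, ← pow_mul, ← h2]
    ring
  · rw [← hL]; exact hEp

end D

end Pool.Agent.MP_7e38b0_nt
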