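import Mathlib

set_option autoImplicit false

namespace Pool.Agent.MP_7e38b0_nt

open Polynomial

section A

variable {F : Type*} [Field F] [Fintype F]

open scoped Classical in
/-- zeros of `P` in `F` -/
noncomputable def Z (P : F[X]) : Finset F := Finset.univ.filter (fun τ => P.eval τ = 0)

/-- product of `X - τ` over the zeros of `P` in `F` -/
noncomputable def LL (P : F[X]) : F[X] := ∏ τ ∈ Z P, (X - C τ)

theorem mem_Z {P : F[X]} {τ : F} : τ ∈ Z P ↔ P.eval τ = 0 := by simp [Z]

theorem prod_univ_X_sub_C : ∏ τ : F, (X - C τ) = (X ^ Fintype.card F - X : F[X]) := by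
  have h := FiniteField.X_pow_card_sub_X_natDegree_eq F (Fintype.one_lt_card (α := F))
  have hroots := FiniteField.roots_X_pow_card_sub_X F
  have hmonic : (X ^ Fintype.card F - X : F[X]).Monic := by
    apply Polynomial.monic_X_pow_sub
    rw [Polynomial.degree_X]
    exact_mod_cast (Fintype.one_lt_card (α := F))
  have := Polynomial.prod_multiset_X_sub_C_of_monic_of_roots_card_eq hmonic (by
    rw [hroots, h]; rfl)
  rw [hroots] at this
  exact this

theorem derivative_W : derivative (X ^ Fintype.card F - X : F[X]) = -1 := by
  rw [derivative_sub, derivative_X_pow, FiniteField.cast_card_eq_zero]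
  simp

theorem eval_W (τ : F) : (X ^ Fintype.card F - X : F[X]).eval τ = 0 := by
  simp [FiniteField.pow_card]

theorem W_ne_zero : (X ^ Fintype.card F - X : F[X]) ≠ 0 :=
  FiniteField.X_pow_card_sub_X_ne_zero F (Fintype.one_lt_card (α := F))

theorem monic_LL (P : F[X]) : (LL P).Monic := monic_prod_of_monic _ _ (fun _ _ => monic_X_sub_C _)

theorem natDegree_LL (P : F[X]) : (LL P).natDegree = (Z P).card := by
  unfold LL
  rw [natDegree_prod_of_monic _ _ (fun _ _ => monic_X_sub_C _)]
  simp

theorem eval_LL_eq_zero_iff (P : F[X]) (τ : F) : (LL P).eval τ = 0 ↔ P.eval τ = 0 := by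
  unfold LL
  rw [eval_prod, Finset.prod_eq_zero_iff]
  constructor
  · rintro ⟨a, ha, h⟩
    simp only [eval_sub, eval_X, eval_C, sub_eq_zero] at h
    subst h
    exact mem_Z.mp ha
  · intro h
    exact ⟨τ, mem_Z.mpr h, by simp⟩

theorem LL_dvd (P : F[X]) : LL P ∣ P := by
  unfold LL
  apply Finset.prod_dvd_of_coprime
  · intro a _ b _ hab
    exact pairwise_coprime_X_sub_C (fun x y h => h) hab
  · intro τ hτ
    rw [dvd_iff_isRoot]
    exact mem_Z.mp hτ

theorem natDegree_LL_le (P : F[X]) (hP : P ≠ 0) : (LL P).natDegree ≤ P.natDegree :=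
  natDegree_le_of_dvd (LL_dvd P) hP

theorem squarefree_LL (P : F[X]) : Squarefree (LL P) := by
  have h : LL P ∣ ∏ τ : F, (X - C τ) := Finset.prod_dvd_prod_of_subset _ _ _ (Finset.subset_univ _)
  have h2 : (∏ τ : F, (X - C τ) : F[X]).Separable := by
    rw [Polynomial.separable_prod_X_sub_C_iff']
    intro a _ b _ h; exact h
  exact (h2.of_dvd h).squarefree

/-- Key identity A: `M(P) L = - ω₀ (X^q - X) L'`. -/
theorem keyA (M P : F[X]) (hdeg : (M.comp P).natDegree < Fintype.card F)
    (hz : ∀ τ : F, P.eval τ = 0 ∨ M.eval (P.eval τ) = 0) :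
    M.comp P * LL P = - (C (M.coeff 0) * (X ^ Fintype.card F - X) * derivative (LL P)) := by
  classical
  set L := LL P with hL
  set Lc : F[X] := ∏ τ ∈ (Z P)ᶜ, (X - C τ) with hLc
  have hW : L * Lc = X ^ Fintype.card F - X := by
    rw [hL, hLc, LL, Finset.prod_mul_prod_compl, prod_univ_X_sub_C]
  have hLc_dvd : Lc ∣ M.comp P := by
    apply Finset.prod_dvd_of_coprime
    · intro a _ b _ hab
      exact pairwise_coprime_X_sub_C (fun x y h => h) hab
    · intro τ hτ
      rw [dvd_iff_isRoot, IsRoot, eval_comp]
      rcases hz τ with h | h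
      · exact absurd (mem_Z.mpr h) (Finset.mem_compl.mp hτ)
      · exact h
  obtain ⟨J, hJ⟩ := hLc_dvd
  -- J + ω₀ L' = 0
  have hcard : (Z P).card + ((Z P)ᶜ).card = Fintype.card F := by
    rw [Finset.card_add_card_compl]
  have hLcdeg : Lc.natDegree = ((Z P)ᶜ).card := by
    rw [hLc, natDegree_prod_of_monic _ _ (fun _ _ => monic_X_sub_C _)]
    simp
  have hLcmonic : Lc.Monic := monic_prod_of_monic _ _ (fun _ _ => monic_X_sub_C _)
  have hLdeg : L.natDegree = (Z P).card := natDegree_LL P
  have key : J + C (M.coeff 0) * derivative L = 0 := by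
    by_cases hZ : (Z P).card = 0
    · -- no zeros
      have hL1 : L = 1 := by
        rw [hL, LL, Finset.card_eq_zero.mp hZ, Finset.prod_empty]
      have hJ0 : J = 0 := by
        by_contra hne
        have : (M.comp P).natDegree = Lc.natDegree + J.natDegree := by
          rw [hJ, natDegree_mul hLcmonic.ne_zero hne]
        omega
      rw [hJ0, hL1]; simp
    · apply eq_zero_of_degree_lt_of_eval_finset_eq_zero (Z P)
      · have h1 : J.degree < ((Z P).card : WithBot ℕ) := by
          by_cases hne : J = 0
          · rw [hne, degree_zero]; exact WithBot.bot_lt_coe _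
          · have : (M.comp P).natDegree = Lc.natDegree + J.natDegree := by
              rw [hJ, natDegree_mul hLcmonic.ne_zero hne]
            rw [degree_eq_natDegree hne]
            exact_mod_cast (by omega)
        have h2 : (C (M.coeff 0) * derivative L).degree < ((Z P).card : WithBot ℕ) := by
          have hd : (derivative L).degree < L.degree := degree_derivative_lt (monic_LL P).ne_zero
          have : L.degree = ((Z P).card : WithBot ℕ) := by
            rw [degree_eq_natDegree (monic_LL P).ne_zero, hLdeg]
          rw [this] at hd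
          rw [← smul_eq_C_mul]
          exact (degree_smul_le _ _).trans_lt hd
        exact (degree_add_le _ _).trans_lt (max_lt h1 h2)
      · intro τ hτ
        have hPτ : P.eval τ = 0 := mem_Z.mp hτ
        have hLτ : L.eval τ = 0 := (eval_LL_eq_zero_iff P τ).mpr hPτ
        have hd : (derivative L).eval τ * Lc.eval τ = -1 := by
          have := congrArg (fun f => (derivative f).eval τ) hW
          simp only [derivative_mul, eval_add, eval_mul, hLτ, zero_mul, add_zero] at this
          rw [this, derivative_W]; simp
        have hM : Lc.eval τ * J.eval τ = M.coeff 0 := by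
          rw [← eval_mul, ← hJ, eval_comp, hPτ, coeff_zero_eq_eval_zero]
        have hLc0 : Lc.eval τ ≠ 0 := by
          intro h; rw [h, mul_zero] at hd
          exact one_ne_zero (neg_eq_zero.mp hd.symm)
        have : Lc.eval τ * (J + C (M.coeff 0) * derivative L).eval τ = 0 := by
          simp only [eval_add, eval_mul, eval_C, mul_add, hM]
          have : Lc.eval τ * (M.coeff 0 * (derivative L).eval τ) =
            M.coeff 0 * ((derivative L).eval τ * Lc.eval τ) := by ring
          rw [this, hd]; ring
        exact (mul_eq_zero.mp this).resolve_left hLc0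
  have hJ' : J = - (C (M.coeff 0) * derivative L) := eq_neg_of_add_eq_zero_left key
  calc M.comp P * L = (L * Lc) * J := by rw [hJ]; ring
    _ = _ := by rw [hW, hJ']; ring

/-- Key identity B: `P' L = v P L'`. -/
theorem keyB (M P : F[X]) (v : ℕ) (hM0 : M.coeff 0 ≠ 0) (hP : P ≠ 0)
    (hMd : (v : F[X]) * (X * derivative M) = - (M - C (M.coeff 0)))
    (hdeg : (M.comp P).natDegree < Fintype.card F)
    (hdeg2 : 2 * P.natDegree < Fintype.card F)
    (hz : ∀ τ : F, P.eval τ = 0 ∨ M.eval (P.eval τ) = 0) :
    derivative P * LL P = v * P * derivative (LL P) := by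
  classical
  have hA := keyA M P hdeg hz
  set L := LL P with hL
  rw [← sub_eq_zero]
  apply eq_zero_of_natDegree_lt_card_of_eval_eq_zero' _ (Finset.univ : Finset F)
  · intro τ _
    by_cases hPτ : P.eval τ = 0
    · have hLτ : L.eval τ = 0 := (eval_LL_eq_zero_iff P τ).mpr hPτ
      simp [hPτ, hLτ]
    · have hMτ : M.eval (P.eval τ) = 0 := (hz τ).resolve_left hPτ
      have h1 := congrArg (fun f => (derivative f).eval τ) hA
      simp only [derivative_mul, derivative_comp, derivative_neg, eval_add, eval_mul, eval_comp,
        hMτ, zero_mul, add_zero, derivative_C, eval_neg, derivative_W, eval_C, eval_W, mul_zero,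
        zero_add, mul_neg, mul_one, neg_mul, neg_neg] at h1
      have h2 := congrArg (fun f => f.eval (P.eval τ)) hMd
      simp only [eval_mul, eval_natCast, eval_X, eval_neg, eval_sub, hMτ, eval_C, zero_sub,
        neg_neg] at h2
      have h3 : M.coeff 0 * (eval τ (derivative P * L - v * P * derivative L)) = 0 := by
        simp only [eval_sub, eval_mul, eval_natCast]
        have : M.coeff 0 * (eval τ (derivative P) * eval τ L) =
            v * eval τ P * (eval τ (derivative P) * eval (eval τ P) (derivative M) * eval τ L) := by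
          rw [← h2]; ring
        rw [mul_sub, this, h1]; ring
      exact (mul_eq_zero.mp h3).resolve_left hM0
  · have hLle : L.natDegree ≤ P.natDegree := natDegree_LL_le P hP
    have h1 : (derivative P * L).natDegree < Fintype.card F := by
      refine (natDegree_mul_le).trans_lt ?_
      have := natDegree_derivative_le P
      omega
    have h2 : ((v : F[X]) * P * derivative L).natDegree < Fintype.card F := by
      have hv : ((v : F[X]) * P).natDegree ≤ P.natDegree := by
        refine natDegree_mul_le.trans ?_
        simp
      refine natDegree_mul_le.trans_lt ?_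
      have := natDegree_derivative_le L
      omega
    rw [Finset.card_univ]
    exact (natDegree_sub_le _ _).trans_lt (max_lt h1 h2)

/-- Key identity C: `L'' = 0`. -/
theorem keyC (M P : F[X]) (v : ℕ) (hM0 : M.coeff 0 ≠ 0) (hP : P ≠ 0)
    (hMd : (v : F[X]) * (X * derivative M) = - (M - C (M.coeff 0)))
    (hdeg : (M.comp P).natDegree < Fintype.card F)
    (hdeg2 : 2 * P.natDegree < Fintype.card F)
    (hz : ∀ τ : F, P.eval τ = 0 ∨ M.eval (P.eval τ) = 0) :
    derivative (derivative (LL P)) = 0 := by
  have hA := keyA M P hdeg hz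
  have hB := keyB M P v hM0 hP hMd hdeg hdeg2 hz
  set L := LL P with hL
  have h1 := congrArg derivative hA
  simp only [derivative_mul, derivative_comp, derivative_neg, derivative_C, derivative_W,
    zero_mul, zero_add, mul_neg, mul_one] at h1
  have h2 := congrArg (fun f => f.comp P) hMd
  simp only [mul_comp, natCast_comp, X_comp, neg_comp, sub_comp, C_comp] at h2
  have h3 : derivative P * (derivative M).comp P * L =
      - ((M.comp P - C (M.coeff 0)) * derivative L) := by
    calc derivative P * (derivative M).comp P * L = (derivative P * L) * (derivative M).comp P := by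
          ring
      _ = (v * (P * (derivative M).comp P)) * derivative L := by rw [hB]; ring
      _ = _ := by rw [h2]; ring
  rw [h3] at h1
  have h4 : C (M.coeff 0) * ((X ^ Fintype.card F - X) * derivative (derivative L)) = 0 := by
    linear_combination h1
  have h5 := (mul_eq_zero.mp h4).resolve_left (by simpa using hM0)
  exact (mul_eq_zero.mp h5).resolve_left W_ne_zero

end A

end Pool.Agent.MP_7e38b0_nt
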